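import Pool.Agent.W5h40.Wlp4.Gen
import Pool.Agent.W5h40.Wlp.Func

set_option autoImplicit false

open MvPolynomial

namespace Pool.Agent.W5h40.WlpE

open Pool.Agent.Helper720.Pow Pool.Agent.W5h40.Wlp
open Pool.Agent.Helper720 (Level.D Level.coeff_D Level.D_below Level.D_hom Level.D_ell_mul Level.ell)

variable {K : Type*} [Field K] {n : ℕ}

/-- descent to the rationals -/
lemma injAt_rat [CharZero K] {d k i j : ℕ} (hd : 1 ≤ d) (h : InjAt K n d k i j) :
    InjAt ℚ n d k i j := by
  intro f hf hJ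
  rw [mem_powIdeal hd] at hJ ⊢
  have h1 : (el ℚ n).map (algebraMap ℚ K) = el K n := by
    unfold el
    rw [map_sum]
    exact Finset.sum_congr rfl fun c _ => map_X _ _
  have h2 := h (f.map (algebraMap ℚ K)) (hf.map _) (by
    rw [mem_powIdeal hd]
    intro m hm
    rw [← h1, ← map_pow, ← map_mul, coeff_map, hJ m hm, map_zero])
  rw [mem_powIdeal hd] at h2
  intro m hm
  have h3 := h2 m hm
  rw [coeff_map] at h3
  exact (map_eq_zero _).1 h3

lemma coeff_toPoly_notMem {d k i : ℕ} (g : ↥(Bs n d k i) → K) {m : Fin n →₀ ℕ}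
    (hm : m ∉ Bs n d k i) : coeff m (toPoly K n d k i g) = 0 := by
  classical
  rw [toPoly_apply, coeff_sum]
  refine Finset.sum_eq_zero fun b _ => ?_
  rw [coeff_monomial, if_neg]
  rintro rfl
  exact hm b.2

/-- Injectivity makes the transposed map surjective. -/
lemma exists_dual {d k i : ℕ} (hd : 1 ≤ d) (h : InjAt K n d k i 1) (c : (Fin n →₀ ℕ) → K) :
    ∃ g : (Fin n →₀ ℕ) → K, ∀ p ∈ Bs n d k i,
      ∑ j, (if fl d (p + Finsupp.single j 1) < k then g (p + Finsupp.single j 1) else 0) = c p := by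
  classical
  have h1 := Tmap_inj hd h
  obtain ⟨Lf, hLf⟩ := LinearMap.exists_leftInverse_of_injective _ (LinearMap.ker_eq_bot.2 h1)
  set φ : (↥(Bs n d k i) → K) →ₗ[K] K :=
    ∑ p : ↥(Bs n d k i), c p • LinearMap.proj p with hφ
  set ψ := φ ∘ₗ Lf with hψ
  have hψT : ∀ x, ψ (Tmap K n d k i x) = φ x := by
    intro x
    rw [hψ, LinearMap.comp_apply]
    have := LinearMap.congr_fun hLf x
    rw [LinearMap.comp_apply, LinearMap.id_apply] at this
    rw [this]
  refine ⟨fun q => if hq : q ∈ Bs n d k (i + 1) then ψ (Pi.single ⟨q, hq⟩ 1) else 0, ?_⟩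
  intro p hp
  set g : (Fin n →₀ ℕ) → K := fun q =>
    if hq : q ∈ Bs n d k (i + 1) then ψ (Pi.single ⟨q, hq⟩ 1) else 0 with hg
  set x : ↥(Bs n d k i) → K := Pi.single ⟨p, hp⟩ 1 with hx
  have h2 : φ x = c p := by
    rw [hφ, LinearMap.sum_apply, Finset.sum_eq_single ⟨p, hp⟩]
    · rw [LinearMap.smul_apply, LinearMap.proj_apply, hx, Pi.single_eq_same, smul_eq_mul, mul_one]
    · intro b _ hb
      rw [LinearMap.smul_apply, LinearMap.proj_apply, hx, Pi.single_eq_of_ne hb, smul_zero]
    · intro hne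
      exact absurd (Finset.mem_univ _) hne
  have h3 : ψ (Tmap K n d k i x) = ∑ q ∈ Bs n d k (i + 1), ∑ j,
      (if q j = 0 then 0 else g q * coeff (q - Finsupp.single j 1) (toPoly K n d k i x)) := by
    rw [LinearMap.pi_apply_eq_sum_univ ψ (Tmap K n d k i x)]
    rw [← Finset.sum_coe_sort (Bs n d k (i + 1)) (fun q => ∑ j,
      (if q j = 0 then 0 else g q * coeff (q - Finsupp.single j 1) (toPoly K n d k i x)))]
    refine Finset.sum_congr rfl fun q _ => ?_
    rw [Tmap_apply, coeff_el_mul, smul_eq_mul, Finset.sum_mul]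
    refine Finset.sum_congr rfl fun j _ => ?_
    split_ifs with hj
    · rw [zero_mul]
    · rw [mul_comm]
      congr 1
      rw [hg]
      simp only
      rw [dif_pos q.2]
      congr 1
      funext r
      by_cases hr : r = q
      · subst hr
        simp
      · rw [Pi.single_eq_of_ne hr, if_neg (Ne.symm hr)]
  rw [sum_swap_pairs (fun q p' => g q * coeff p' (toPoly K n d k i x)), hψT, h2] at h3
  rw [h3, Finset.sum_eq_single p]
  · refine Finset.sum_congr rfl fun j _ => ?_
    have h4 := coeff_toPoly x ⟨p, hp⟩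
    simp only at h4
    rw [h4, hx, Pi.single_eq_same, mul_one]
  · intro b hb hbp
    refine Finset.sum_eq_zero fun j _ => ?_
    have h4 := coeff_toPoly x ⟨b, hb⟩
    simp only at h4
    rw [h4, hx, Pi.single_eq_of_ne (fun h => hbp (congrArg Subtype.val h)), mul_zero, ite_self]
  · intro hne
    exact absurd hp hne

lemma fl_add_d {d : ℕ} (hd : 1 ≤ d) (v : Fin n →₀ ℕ) (c : Fin n) :
    fl d (v + Finsupp.single c d) = fl d v + 1 := by
  unfold fl
  rw [← Finset.add_sum_erase _ _ (Finset.mem_univ c),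
    ← Finset.add_sum_erase _ (fun j => v j / d) (Finset.mem_univ c), Finsupp.add_apply,
    Finsupp.single_eq_same, Nat.add_div_right _ (by omega)]
  have : ∀ j ∈ Finset.univ.erase c, (v + Finsupp.single c d : Fin n →₀ ℕ) j / d = v j / d := by
    intro j hj
    rw [Finsupp.add_apply, Finsupp.single_apply, if_neg (Ne.symm (Finset.ne_of_mem_erase hj)),
      add_zero]
  rw [Finset.sum_congr rfl this]
  omega

end Pool.Agent.W5h40.WlpE
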