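import Pool.Agent.W5h40.WlpE.Crit

set_option autoImplicit false

open MvPolynomial

namespace Pool.Agent.W5h40.WlpE

open Pool.Agent.Helper720.Pow Pool.Agent.W5h40.Wlp
open Pool.Agent.Helper720

variable {n : ℕ}

lemma mem_box {D i : ℕ} {w : Fin n →₀ ℕ} :
    w ∈ Bs n (D + 1) 1 i ↔ w.degree = i ∧ ∀ c, w c ≤ D := by
  rw [mem_Bs, fl_lt_one (by omega)]
  exact Iff.rfl

/-- the constant vector -/
noncomputable def cv (n D : ℕ) : Fin n →₀ ℕ := w0 n (D + 1)

lemma cv_apply (D : ℕ) (c : Fin n) : cv n D c = D := rfl

lemma cv_degree (D : ℕ) : (cv n D).degree = n * D := w0_degree (D + 1)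

lemma fl_add_single {D : ℕ} {u : Fin n →₀ ℕ} (hu : ∀ c, u c ≤ D) (j : Fin n) :
    fl (D + 1) (u + Finsupp.single j 1) = if u j = D then 1 else 0 := by
  have h0 : fl (D + 1) u = 0 := by
    have := (fl_lt_one (show 1 ≤ D + 1 by omega) u).2 hu
    omega
  by_cases h : u j = D
  · rw [if_pos h]
    have h1 : u + Finsupp.single j 1 = (u - Finsupp.single j D) + Finsupp.single j (D + 1) := by
      ext c
      rw [Finsupp.add_apply, Finsupp.add_apply, Finsupp.tsub_apply, Finsupp.single_apply,
        Finsupp.single_apply, Finsupp.single_apply]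
      by_cases hc : j = c
      · subst hc
        rw [if_pos rfl, if_pos rfl, if_pos rfl]
        omega
      · rw [if_neg hc, if_neg hc, if_neg hc]
        omega
    rw [h1, fl_add_d (by omega)]
    have h2 : fl (D + 1) (u - Finsupp.single j D) ≤ fl (D + 1) u := fl_mono _ tsub_le_self
    omega
  · rw [if_neg h]
    have h1 : fl (D + 1) (u + Finsupp.single j 1) < 1 := by
      rw [fl_lt_one (by omega)]
      intro c
      show (u + Finsupp.single j 1 : Fin n →₀ ℕ) c ≤ D
      rw [Finsupp.add_apply, Finsupp.single_apply]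
      have := hu c
      by_cases hc : j = c
      · subst hc
        rw [if_pos rfl]
        omega
      · rw [if_neg hc]
        omega
    omega

/-- the weights of the invariant form -/
noncomputable def Nw (D : ℕ) (w : Fin n →₀ ℕ) : ℚ :=
  ∏ j, ((w j).factorial : ℚ) / ((D - w j).factorial : ℚ)

lemma Nw_pos (D : ℕ) (w : Fin n →₀ ℕ) : 0 < Nw D w :=
  Finset.prod_pos fun j _ => div_pos (by exact_mod_cast Nat.factorial_pos _)
    (by exact_mod_cast Nat.factorial_pos _)

lemma Nw_add {D : ℕ} {w : Fin n →₀ ℕ} {j : Fin n} (hj : w j < D) :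
    Nw D (w + Finsupp.single j 1) = ((w j : ℚ) + 1) * ((D : ℚ) - w j) * Nw D w := by
  unfold Nw
  rw [← Finset.mul_prod_erase _ _ (Finset.mem_univ j),
    ← Finset.mul_prod_erase Finset.univ
      (fun c => ((w c).factorial : ℚ) / ((D - w c).factorial : ℚ)) (Finset.mem_univ j)]
  have h1 : ∀ c ∈ Finset.univ.erase j,
      (((w + Finsupp.single j 1 : Fin n →₀ ℕ) c).factorial : ℚ) /
        ((D - (w + Finsupp.single j 1 : Fin n →₀ ℕ) c).factorial : ℚ) =
      ((w c).factorial : ℚ) / ((D - w c).factorial : ℚ) := by
    intro c hc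
    rw [Finsupp.add_apply, Finsupp.single_apply, if_neg (Ne.symm (Finset.ne_of_mem_erase hc)),
      add_zero]
  rw [Finset.prod_congr rfl h1, ← mul_assoc]
  congr 1
  rw [Finsupp.add_apply, Finsupp.single_eq_same]
  obtain ⟨r, hr⟩ : ∃ r, D = w j + 1 + r := Nat.exists_eq_add_of_le hj
  have h2 : D - (w j + 1) = r := by omega
  have h3 : D - w j = r + 1 := by omega
  rw [h2, h3, Nat.factorial_succ, Nat.factorial_succ, hr]
  push_cast
  have h4 : ((r.factorial : ℕ) : ℚ) ≠ 0 := by exact_mod_cast Nat.factorial_ne_zero r
  have h5 : ((r : ℚ) + 1) ≠ 0 := by exact_mod_cast Nat.succ_ne_zero r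
  field_simp
  ring

/-- The criterion: a translation invariant polynomial with a monomial in which all variables
occur. -/
theorem not_inj_crit_rat {D M : ℕ} (hM : 1 ≤ M) (hnD : 2 * (M + D) = n * D)
    (F : MvPolynomial (Fin n) ℚ) (hF : F.IsHomogeneous M) (hDF : ∑ c, pderiv c F = 0)
    (hsupp : ∀ m ∈ F.support, ∀ c, m c ≤ D) {v₀ : Fin n →₀ ℕ} (hv₀ : coeff v₀ F ≠ 0)
    (hv1 : ∀ c, 1 ≤ v₀ c) : ¬ InjAt ℚ n (D + 1) 2 (M + 2 * D) 1 := by
  classical
  intro hinj
  have hd : 1 ≤ D + 1 := by omega
  set y : (Fin n →₀ ℕ) → ℚ := fun w => coeff w F * ∏ j, ((D - w j).factorial : ℚ) with hy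
  obtain ⟨g, hg⟩ := exists_dual hd hinj (fun p => if p ≤ cv n D then y (cv n D - p) else 0)
  -- the highest weight vectors
  set e := M + D with he
  set η : Fin n → MvPolynomial (Fin n) ℚ := fun c =>
    toPoly ℚ n (D + 1) 1 e (fun w => g (cv n D - w + Finsupp.single c (D + 1))) with hη
  have hηc : ∀ (c : Fin n) (w : Fin n →₀ ℕ), w ∈ Bs n (D + 1) 1 e →
      coeff w (η c) = g (cv n D - w + Finsupp.single c (D + 1)) := by
    intro c w hw
    exact coeff_toPoly (fun w : ↥(Bs n (D + 1) 1 e) =>
      g (cv n D - w + Finsupp.single c (D + 1))) ⟨w, hw⟩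
  have hdeg : ∀ w : Fin n →₀ ℕ, (∀ c, w c ≤ D) → (cv n D - w).degree + w.degree = n * D := by
    intro w hw
    have h1 : cv n D - w + w = cv n D := tsub_add_cancel_of_le hw
    rw [← map_add, h1, cv_degree]
  -- they are killed by the linear form
  have hη1 : ∀ c, el ℚ n ^ 1 * η c ∈ powIdeal ℚ n (D + 1) 1 := by
    intro c
    rw [pow_one]
    apply mem_of_coeff hd (el_mul_hom (toPoly_hom _))
    intro q hq hfl
    have hqbox : ∀ c, q c ≤ D := (mem_box.1 (mem_Bs.2 ⟨hq, hfl⟩)).2
    rw [coeff_el_mul]
    set u := cv n D - q with hu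
    have hubox : ∀ c, u c ≤ D := fun c => by
      rw [hu, Finsupp.tsub_apply, cv_apply]
      omega
    have hudeg : u.degree + q.degree = n * D := hdeg q hqbox
    have h1 := hg (u + Finsupp.single c (D + 1)) (by
      rw [mem_Bs, fl_add_d hd, map_add, Finsupp.degree_single]
      have h2 : fl (D + 1) u < 1 := (fl_lt_one hd u).2 hubox
      exact ⟨by omega, by omega⟩)
    rw [if_neg (by
      intro hle
      have := hle c
      rw [Finsupp.add_apply, Finsupp.single_eq_same, cv_apply] at this
      omega)] at h1
    refine Eq.trans (Finset.sum_congr rfl fun j _ => ?_) h1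
    have h2 : u + Finsupp.single c (D + 1) + Finsupp.single j 1 =
        u + Finsupp.single j 1 + Finsupp.single c (D + 1) := by
      rw [add_right_comm]
    have h3 : u j = D ↔ q j = 0 := by
      have := hqbox j
      rw [hu, Finsupp.tsub_apply, cv_apply]
      omega
    rw [h2, fl_add_d hd, fl_add_single hubox]
    by_cases hj : q j = 0
    · rw [if_pos hj, if_pos (h3.2 hj), if_neg (by omega)]
    · rw [if_neg hj, if_neg (fun h => hj (h3.1 h)), if_pos (by omega), hηc]
      · congr 2
        ext k
        rw [Finsupp.tsub_apply, Finsupp.tsub_apply, Finsupp.add_apply, hu, Finsupp.tsub_apply,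
          cv_apply, Finsupp.single_apply]
        have := hqbox k
        by_cases hk : j = k
        · subst hk
          rw [if_pos rfl]
          omega
        · rw [if_neg hk]
          omega
      · rw [mem_box]
        refine ⟨?_, fun k => ?_⟩
        · have := degree_sub_single hj
          omega
        · rw [Finsupp.tsub_apply]
          exact (Nat.sub_le _ _).trans (hqbox k)
  -- hence also by the lowering operator
  have hη2 : ∀ (c : Fin n) (m : Fin n →₀ ℕ), (∀ k, m k ≤ D) →
      coeff m (Level.D (cv n D) (η c)) = 0 := by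
    intro c m hm
    have h1 := hη1 c
    rw [pow_one, mem_powIdeal hd] at h1
    have h2 : ∀ m, m ≤ cv n D → coeff m (Level.ell ℚ n * η c) = 0 := by
      intro m hm
      exact h1 m ((fl_lt_one hd m).2 hm)
    have h3 := Level.D_below h2
    rw [Level.D_ell_mul (cv n D) (toPoly_hom _), cv_degree] at h3
    have h4 : ((n * D : ℕ) : ℚ) - 2 * (e : ℚ) = 0 := by
      have : ((n * D : ℕ) : ℚ) = ((2 * (M + D) : ℕ) : ℚ) := by rw [hnD]
      rw [this, he]
      push_cast
      ring
    rw [h4, map_zero, zero_mul, add_zero] at h3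
    obtain ⟨e', he'⟩ : ∃ e', e = e' + 1 := ⟨e - 1, by omega⟩
    have h5 : (Level.D (cv n D) (η c)).IsHomogeneous e' := by
      apply Level.D_hom
      rw [← he']
      exact toPoly_hom _
    have h6 : Level.D (cv n D) (η c) ∈ powIdeal ℚ n (D + 1) 1 := by
      apply inj_k1 (i := e') (j := 1) hd (by rw [Nat.add_sub_cancel]; omega) _ h5
      rw [pow_one, mem_powIdeal hd]
      intro m hm
      exact h3 m ((fl_lt_one hd m).1 hm)
    rw [mem_powIdeal hd] at h6
    exact h6 m ((fl_lt_one hd m).2 hm)
  -- the equation in degree `M`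
  set z : (Fin n →₀ ℕ) → ℚ := fun w => g (cv n D - w) with hz
  set v : (Fin n →₀ ℕ) → ℚ := fun w => y w - ∑ j, (if w j = 0 then
    coeff (w + Finsupp.single j D) (η j) else 0) with hv
  have hvz : ∀ w ∈ Bs n (D + 1) 1 M,
      v w = ∑ j, (if w j = 0 then 0 else z (w - Finsupp.single j 1)) := by
    intro w hw
    rw [mem_box] at hw
    obtain ⟨hwd, hwb⟩ := hw
    set p := cv n D - w with hp
    have hpb : ∀ c, p c ≤ D := fun c => by
      rw [hp, Finsupp.tsub_apply, cv_apply]
      omega
    have hpd : p.degree + w.degree = n * D := hdeg w hwb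
    have h1 := hg p (by
      rw [mem_Bs]
      have h2 : fl (D + 1) p < 1 := (fl_lt_one hd p).2 hpb
      exact ⟨by omega, by omega⟩)
    have h2 : cv n D - p = w := by
      ext k
      rw [hp, Finsupp.tsub_apply, Finsupp.tsub_apply, cv_apply]
      have := hwb k
      omega
    rw [if_pos (show p ≤ cv n D from hpb), h2] at h1
    rw [hv]
    simp only
    rw [← h1, ← Finset.sum_sub_distrib]
    refine Finset.sum_congr rfl fun j _ => ?_
    have h3 : p j = D ↔ w j = 0 := by
      have := hwb j
      rw [hp, Finsupp.tsub_apply, cv_apply]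
      omega
    have h4 : fl (D + 1) (p + Finsupp.single j 1) < 2 := by
      rw [fl_add_single hpb]
      split_ifs <;> omega
    rw [if_pos h4]
    by_cases hj : w j = 0
    · rw [if_pos hj, if_pos hj, hηc]
      · rw [sub_eq_zero]
        congr 1
        ext k
        simp only [hp, Finsupp.add_apply, Finsupp.tsub_apply, cv_apply, Finsupp.single_apply]
        by_cases hk : j = k
        · subst hk
          simp only [if_true]
          omega
        · simp only [if_neg hk]
          omega
      · rw [mem_box, map_add, Finsupp.degree_single]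
        refine ⟨by omega, fun k => ?_⟩
        rw [Finsupp.add_apply, Finsupp.single_apply]
        have := hwb k
        by_cases hk : j = k
        · subst hk
          rw [if_pos rfl]
          omega
        · rw [if_neg hk]
          omega
    · rw [if_neg hj, if_neg hj, sub_zero, hz]
      simp only
      congr 1
      ext k
      rw [Finsupp.add_apply, hp, Finsupp.tsub_apply, Finsupp.tsub_apply, Finsupp.tsub_apply,
        cv_apply, Finsupp.single_apply]
      have := hwb k
      by_cases hk : j = k
      · subst hk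
        rw [if_pos rfl]
        omega
      · rw [if_neg hk]
        omega
  obtain ⟨M', hM'⟩ : ∃ M', M = M' + 1 := ⟨M - 1, by omega⟩
  -- `v` is killed by the lowering operator
  have hlow : ∀ w ∈ Bs n (D + 1) 1 M', ∑ j, (if w j < D then
      ((w j : ℚ) + 1) * ((D : ℚ) - w j) * v (w + Finsupp.single j 1) else 0) = 0 := by
    intro w hw
    rw [mem_box] at hw
    obtain ⟨hwd, hwb⟩ := hw
    have hA : ∑ j, (if w j < D then
        ((w j : ℚ) + 1) * ((D : ℚ) - w j) * y (w + Finsupp.single j 1) else 0) = 0 := by
      have h1 := congrArg (coeff w) hDF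
      rw [coeff_sum, coeff_zero] at h1
      have h2 : ∀ j : Fin n, (if w j < D then
          ((w j : ℚ) + 1) * ((D : ℚ) - w j) * y (w + Finsupp.single j 1) else 0) =
          (∏ c, ((D - w c).factorial : ℚ)) * coeff w (pderiv j F) := by
        intro j
        rw [coeff_pderiv]
        by_cases hj : w j < D
        · rw [if_pos hj, hy]
          simp only
          rw [← Finset.mul_prod_erase _ _ (Finset.mem_univ j),
            ← Finset.mul_prod_erase Finset.univ (fun c => ((D - w c).factorial : ℚ))
              (Finset.mem_univ j)]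
          have h3 : ∀ c ∈ Finset.univ.erase j,
              ((D - (w + Finsupp.single j 1 : Fin n →₀ ℕ) c).factorial : ℚ) =
              ((D - w c).factorial : ℚ) := by
            intro c hc
            rw [Finsupp.add_apply, Finsupp.single_apply,
              if_neg (Ne.symm (Finset.ne_of_mem_erase hc)), add_zero]
          rw [Finset.prod_congr rfl h3, Finsupp.add_apply, Finsupp.single_eq_same]
          obtain ⟨r, hr⟩ : ∃ r, D = w j + 1 + r := Nat.exists_eq_add_of_le hj
          have h4 : D - (w j + 1) = r := by omega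
          have h5 : D - w j = r + 1 := by omega
          have h6 : (D : ℚ) = w j + 1 + r := by rw [hr]; push_cast; ring
          rw [h4, h5, Nat.factorial_succ, h6]
          push_cast
          ring
        · rw [if_neg hj]
          have h3 : coeff (w + Finsupp.single j 1) F = 0 := by
            by_contra hne
            have := hsupp _ (mem_support_iff.2 hne) j
            rw [Finsupp.add_apply, Finsupp.single_eq_same] at this
            omega
          rw [h3, zero_mul, mul_zero]
      rw [Finset.sum_congr rfl fun j _ => h2 j, ← Finset.mul_sum, h1, mul_zero]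
    have hB : ∀ c : Fin n, ∑ j, (if w j < D then ((w j : ℚ) + 1) * ((D : ℚ) - w j) *
        (if (w + Finsupp.single j 1 : Fin n →₀ ℕ) c = 0 then
          coeff (w + Finsupp.single j 1 + Finsupp.single c D) (η c) else 0) else 0) = 0 := by
      intro c
      by_cases hc : w c = 0
      · have h1 := hη2 c (w + Finsupp.single c D) (fun k => by
          rw [Finsupp.add_apply, Finsupp.single_apply]
          have := hwb k
          by_cases hk : c = k
          · subst hk
            rw [if_pos rfl]
            omega
          · rw [if_neg hk]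
            omega)
        rw [Level.coeff_D] at h1
        refine Eq.trans (Finset.sum_congr rfl fun j _ => ?_) h1
        by_cases hjc : j = c
        · subst hjc
          have h2 : (w + Finsupp.single j D : Fin n →₀ ℕ) j = D := by
            rw [Finsupp.add_apply, Finsupp.single_eq_same]
            omega
          rw [h2, cv_apply, sub_self, zero_mul, zero_mul]
          have h3 : (w + Finsupp.single j 1 : Fin n →₀ ℕ) j ≠ 0 := by
            rw [Finsupp.add_apply, Finsupp.single_eq_same]
            omega
          rw [if_neg h3, mul_zero, ite_self]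
        · have h2 : (w + Finsupp.single c D : Fin n →₀ ℕ) j = w j := by
            rw [Finsupp.add_apply, Finsupp.single_apply, if_neg (Ne.symm hjc), add_zero]
          have h3 : (w + Finsupp.single j 1 : Fin n →₀ ℕ) c = 0 := by
            rw [Finsupp.add_apply, Finsupp.single_apply, if_neg hjc]
            omega
          rw [h2, h3, if_pos rfl, cv_apply, add_right_comm]
          by_cases hj : w j < D
          · rw [if_pos hj]
            ring
          · have h4 : w j = D := by
              have := hwb j
              omega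
            rw [if_neg hj, h4, sub_self, zero_mul, zero_mul]
      · refine Finset.sum_eq_zero fun j _ => ?_
        rw [if_neg (show ¬ ((w + Finsupp.single j 1 : Fin n →₀ ℕ) c = 0) by
          rw [Finsupp.add_apply]
          omega), mul_zero, ite_self]
    have h1 : ∀ j : Fin n, (if w j < D then
        ((w j : ℚ) + 1) * ((D : ℚ) - w j) * v (w + Finsupp.single j 1) else 0) =
        (if w j < D then
          ((w j : ℚ) + 1) * ((D : ℚ) - w j) * y (w + Finsupp.single j 1) else 0) -
        ∑ c, (if w j < D then ((w j : ℚ) + 1) * ((D : ℚ) - w j) *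
        (if (w + Finsupp.single j 1 : Fin n →₀ ℕ) c = 0 then
          coeff (w + Finsupp.single j 1 + Finsupp.single c D) (η c) else 0) else 0) := by
      intro j
      by_cases hj : w j < D
      · simp only [if_pos hj]
        rw [hv]
        simp only
        rw [mul_sub, Finset.mul_sum]
      · simp only [if_neg hj, Finset.sum_const_zero, sub_zero]
    rw [Finset.sum_congr rfl fun j _ => h1 j, Finset.sum_sub_distrib, hA, Finset.sum_comm,
      Finset.sum_eq_zero fun c _ => hB c, sub_zero]
  -- hence `v = 0`
  have hnorm : ∑ q ∈ Bs n (D + 1) 1 M, Nw D q * v q * v q = 0 := by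
    have h1 : ∀ q ∈ Bs n (D + 1) 1 M, Nw D q * v q * v q =
        ∑ j, (if q j = 0 then 0 else Nw D q * v q * z (q - Finsupp.single j 1)) := by
      intro q hq
      have h2 : Nw D q * v q * v q = Nw D q * v q *
          ∑ j, (if q j = 0 then 0 else z (q - Finsupp.single j 1)) :=
        congrArg (fun x => Nw D q * v q * x) (hvz q hq)
      rw [h2, Finset.mul_sum]
      refine Finset.sum_congr rfl fun j _ => ?_
      split_ifs
      · rw [mul_zero]
      · rfl
    rw [Finset.sum_congr rfl h1, hM']
    rw [sum_swap_pairs (fun q p => Nw D q * v q * z p)]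
    refine Finset.sum_eq_zero fun p hp => ?_
    have h2 := hlow p hp
    rw [mem_box] at hp
    have h3 : ∀ j : Fin n, (if fl (D + 1) (p + Finsupp.single j 1) < 1 then
        Nw D (p + Finsupp.single j 1) * v (p + Finsupp.single j 1) * z p else 0) =
        (Nw D p * z p) * (if p j < D then
          ((p j : ℚ) + 1) * ((D : ℚ) - p j) * v (p + Finsupp.single j 1) else 0) := by
      intro j
      rw [fl_add_single hp.2]
      have := hp.2 j
      by_cases hj : p j < D
      · rw [if_neg (show ¬ p j = D by omega), if_pos (by omega), if_pos hj, Nw_add hj]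
        ring
      · rw [if_pos (show p j = D by omega), if_neg (by omega), if_neg hj, mul_zero]
    rw [Finset.sum_congr rfl fun j _ => h3 j, ← Finset.mul_sum, h2, mul_zero]
  have hv0 : v v₀ = 0 := by
    have hv₀d : v₀.degree = M := degree_of_coeff hF hv₀
    have hmem : v₀ ∈ Bs n (D + 1) 1 M := by
      rw [mem_box]
      exact ⟨hv₀d, hsupp v₀ (mem_support_iff.2 hv₀)⟩
    have h1 := (Finset.sum_eq_zero_iff_of_nonneg (fun q _ => by
      have := (Nw_pos D q).le
      nlinarith [mul_self_nonneg (v q), mul_nonneg this (mul_self_nonneg (v q))])).1 hnorm v₀ hmem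
    have h2 := Nw_pos D v₀
    rcases mul_eq_zero.1 h1 with h3 | h3
    · exact (mul_eq_zero.1 h3).resolve_left h2.ne'
    · exact h3
  rw [hv] at hv0
  simp only at hv0
  rw [Finset.sum_eq_zero (fun j _ => by rw [if_neg]; have := hv1 j; omega), sub_zero, hy] at hv0
  rcases mul_eq_zero.1 hv0 with h | h
  · exact hv₀ h
  · rw [Finset.prod_eq_zero_iff] at h
    obtain ⟨j, _, hj⟩ := h
    exact Nat.factorial_ne_zero _ (by exact_mod_cast hj)

/-- The criterion over a field of characteristic zero. -/
theorem not_inj_crit {K : Type*} [Field K] [CharZero K] {D M : ℕ} (hM : 1 ≤ M)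
    (hnD : 2 * (M + D) = n * D)
    (F : MvPolynomial (Fin n) ℚ) (hF : F.IsHomogeneous M) (hDF : ∑ c, pderiv c F = 0)
    (hsupp : ∀ m ∈ F.support, ∀ c, m c ≤ D) {v₀ : Fin n →₀ ℕ} (hv₀ : coeff v₀ F ≠ 0)
    (hv1 : ∀ c, 1 ≤ v₀ c) : ¬ InjAt K n (D + 1) 2 (M + 2 * D) 1 := fun h =>
  not_inj_crit_rat hM hnD F hF hDF hsupp hv₀ hv1 (injAt_rat (by omega) h)

end Pool.Agent.W5h40.WlpE
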