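import Pool.Agent.W5h40.WlpE.Ops

set_option autoImplicit false

open MvPolynomial

namespace Pool.Agent.W5h40.WlpE

open Pool.Agent.Helper720.Pow Pool.Agent.W5h40.Wlp
open Pool.Agent.Helper720

variable {n : ℕ}

/-- The criterion for `n D` odd: a translation invariant polynomial with a monomial in which all
exponents are at least two. -/
theorem not_inj_crit_odd_rat {D M : ℕ} (hM : 2 ≤ M) (hD : 1 ≤ D) (hnD : 2 * (M + D) = n * D + 1)
    (F : MvPolynomial (Fin n) ℚ) (hF : F.IsHomogeneous M) (hDF : ∑ c, pderiv c F = 0)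
    (hsupp : ∀ m ∈ F.support, ∀ c, m c ≤ D) {v₀ : Fin n →₀ ℕ} (hv₀ : coeff v₀ F ≠ 0)
    (hv1 : ∀ c, 2 ≤ v₀ c) : ¬ InjAt ℚ n (D + 1) 2 (M + 2 * D - 1) 1 := by
  classical
  intro hinj
  have hd : 1 ≤ D + 1 := by omega
  set y : (Fin n →₀ ℕ) → ℚ := fun w => coeff w F * ∏ j, ((D - w j).factorial : ℚ) with hy
  obtain ⟨g, hg⟩ := exists_dual hd hinj (fun p => if p ≤ cv n D then y (cv n D - p) else 0)
  -- the highest weight vectors
  set e := M + D with he
  set η : Fin n → MvPolynomial (Fin n) ℚ := fun c =>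
    toPoly ℚ n (D + 1) 1 e (fun w => g (cv n D - w + Finsupp.single c (D + 1))) with hη
  have hηhom : ∀ c, (η c).IsHomogeneous e := fun c => toPoly_hom _
  have hηc : ∀ (c : Fin n) (w : Fin n →₀ ℕ), w ∈ Bs n (D + 1) 1 e →
      coeff w (η c) = g (cv n D - w + Finsupp.single c (D + 1)) := by
    intro c w hw
    exact coeff_toPoly (fun w : ↥(Bs n (D + 1) 1 e) =>
      g (cv n D - w + Finsupp.single c (D + 1))) ⟨w, hw⟩
  have hdeg : ∀ w : Fin n →₀ ℕ, (∀ c, w c ≤ D) → (cv n D - w).degree + w.degree = n * D := by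
    intro w hw
    have h1 : cv n D - w + w = cv n D := tsub_add_cancel_of_le hw
    rw [← map_add, h1, cv_degree]
  -- they are killed by the linear form
  have hη1 : ∀ c, el ℚ n * η c ∈ powIdeal ℚ n (D + 1) 1 := by
    intro c
    apply mem_of_coeff hd (el_mul_hom (toPoly_hom _))
    intro q hq hfl
    have hqbox : ∀ c, q c ≤ D := (mem_box.1 (mem_Bs.2 ⟨hq, hfl⟩)).2
    rw [coeff_el_mul]
    set u := cv n D - q with hu
    have hubox : ∀ c, u c ≤ D := fun c => by
      rw [hu, Finsupp.tsub_apply, cv_apply]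
      omega
    have hudeg : u.degree + q.degree = n * D := hdeg q hqbox
    have h1 := hg (u + Finsupp.single c (D + 1)) (by
      rw [mem_Bs, fl_add_d hd, map_add, Finsupp.degree_single]
      have h2 : fl (D + 1) u < 1 := (fl_lt_one hd u).2 hubox
      exact ⟨by omega, by omega⟩)
    rw [if_neg (by
      intro hle
      have := hle c
      rw [Finsupp.add_apply, Finsupp.single_eq_same, cv_apply] at this
      omega)] at h1
    refine Eq.trans (Finset.sum_congr rfl fun j _ => ?_) h1
    have h2 : u + Finsupp.single c (D + 1) + Finsupp.single j 1 =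
        u + Finsupp.single j 1 + Finsupp.single c (D + 1) := by
      rw [add_right_comm]
    have h3 : u j = D ↔ q j = 0 := by
      have := hqbox j
      rw [hu, Finsupp.tsub_apply, cv_apply]
      omega
    rw [h2, fl_add_d hd, fl_add_single hubox]
    by_cases hj : q j = 0
    · rw [if_pos hj, if_pos (h3.2 hj), if_neg (by omega)]
    · rw [if_neg hj, if_neg (fun h => hj (h3.1 h)), if_pos (by omega), hηc]
      · congr 2
        ext k
        rw [Finsupp.tsub_apply, Finsupp.tsub_apply, Finsupp.add_apply, hu, Finsupp.tsub_apply,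
          cv_apply, Finsupp.single_apply]
        have := hqbox k
        by_cases hk : j = k
        · subst hk
          rw [if_pos rfl]
          omega
        · rw [if_neg hk]
          omega
      · rw [mem_box]
        refine ⟨?_, fun k => ?_⟩
        · have := degree_sub_single hj
          omega
        · rw [Finsupp.tsub_apply]
          exact (Nat.sub_le _ _).trans (hqbox k)
  -- hence by the square of the lowering operator
  have hη3 : ∀ (c : Fin n) (m : Fin n →₀ ℕ), (∀ k, m k ≤ D) →
      coeff m (Level.D (cv n D) (Level.D (cv n D) (η c))) = 0 := by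
    intro c m hm
    have h1 := hη1 c
    rw [mem_powIdeal hd] at h1
    have h2 : ∀ m, m ≤ cv n D → coeff m (Level.ell ℚ n * η c) = 0 := by
      intro m hm
      exact h1 m ((fl_lt_one hd m).2 hm)
    obtain ⟨e', he'⟩ : ∃ e', e = e' + 1 + 1 := ⟨e - 2, by omega⟩
    have hom1 : (Level.D (cv n D) (η c)).IsHomogeneous (e' + 1) := by
      apply Level.D_hom
      rw [← he']
      exact hηhom c
    have hom2 : (Level.D (cv n D) (Level.D (cv n D) (η c))).IsHomogeneous e' := Level.D_hom hom1
    have h3 := Level.D_below h2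
    rw [Level.D_ell_mul (cv n D) (hηhom c), cv_degree] at h3
    have h4 : ((n * D : ℕ) : ℚ) - 2 * (e : ℚ) = -1 := by
      have : ((n * D + 1 : ℕ) : ℚ) = ((2 * (M + D) : ℕ) : ℚ) := by rw [hnD]
      push_cast at this ⊢
      rw [he]
      push_cast
      linarith
    rw [h4] at h3
    have h5 := Level.D_below h3
    have h6 : Level.ell ℚ n * Level.D (cv n D) (η c) + C (-1) * η c =
        Level.ell ℚ n * Level.D (cv n D) (η c) - η c := by
      rw [map_neg, map_one]
      ring
    rw [h6, D_sub', Level.D_ell_mul (cv n D) hom1, cv_degree] at h5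
    have h7 : ((n * D : ℕ) : ℚ) - 2 * ((e' + 1 : ℕ) : ℚ) = 1 := by
      rw [he'] at h4
      push_cast at h4 ⊢
      linarith
    rw [h7, map_one, one_mul] at h5
    have h8 : Level.D (cv n D) (Level.D (cv n D) (η c)) ∈ powIdeal ℚ n (D + 1) 1 := by
      apply inj_k1 (i := e') (j := 1) hd (by rw [Nat.add_sub_cancel]; omega) _ hom2
      rw [pow_one, mem_powIdeal hd]
      intro m hm
      have h9 := h5 m ((fl_lt_one hd m).1 hm)
      rw [add_sub_cancel_right] at h9
      exact h9
    rw [mem_powIdeal hd] at h8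
    exact h8 m ((fl_lt_one hd m).2 hm)
  -- the equation in degree `M`
  set z : (Fin n →₀ ℕ) → ℚ := fun w => g (cv n D - w) with hz
  set v : (Fin n →₀ ℕ) → ℚ := fun w => y w - ∑ c, Yc D c (η c) w with hv
  have hvz : ∀ w ∈ Bs n (D + 1) 1 M, v w = Rs z w := by
    intro w hw
    rw [mem_box] at hw
    obtain ⟨hwd, hwb⟩ := hw
    set p := cv n D - w with hp
    have hpb : ∀ c, p c ≤ D := fun c => by
      rw [hp, Finsupp.tsub_apply, cv_apply]
      omega
    have hpd : p.degree + w.degree = n * D := hdeg w hwb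
    have h1 := hg p (by
      rw [mem_Bs]
      have h2 : fl (D + 1) p < 1 := (fl_lt_one hd p).2 hpb
      exact ⟨by omega, by omega⟩)
    have h2 : cv n D - p = w := by
      ext k
      rw [hp, Finsupp.tsub_apply, Finsupp.tsub_apply, cv_apply]
      have := hwb k
      omega
    rw [if_pos (show p ≤ cv n D from hpb), h2] at h1
    rw [hv]
    simp only
    unfold Rs Yc
    rw [← h1, ← Finset.sum_sub_distrib]
    refine Finset.sum_congr rfl fun j _ => ?_
    have h3 : p j = D ↔ w j = 0 := by
      have := hwb j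
      rw [hp, Finsupp.tsub_apply, cv_apply]
      omega
    have h4 : fl (D + 1) (p + Finsupp.single j 1) < 2 := by
      rw [fl_add_single hpb]
      split_ifs <;> omega
    rw [if_pos h4]
    by_cases hj : w j = 0
    · rw [if_pos hj, if_pos hj, hηc]
      · rw [sub_eq_zero]
        congr 1
        ext k
        simp only [hp, Finsupp.add_apply, Finsupp.tsub_apply, cv_apply, Finsupp.single_apply]
        by_cases hk : j = k
        · subst hk
          simp only [if_true]
          omega
        · simp only [if_neg hk]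
          omega
      · rw [mem_box, map_add, Finsupp.degree_single]
        refine ⟨by omega, fun k => ?_⟩
        rw [Finsupp.add_apply, Finsupp.single_apply]
        have := hwb k
        by_cases hk : j = k
        · subst hk
          rw [if_pos rfl]
          omega
        · rw [if_neg hk]
          omega
    · rw [if_neg hj, if_neg hj, sub_zero, hz]
      simp only
      congr 1
      ext k
      rw [Finsupp.add_apply, hp, Finsupp.tsub_apply, Finsupp.tsub_apply, Finsupp.tsub_apply,
        cv_apply, Finsupp.single_apply]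
      have := hwb k
      by_cases hk : j = k
      · subst hk
        rw [if_pos rfl]
        omega
      · rw [if_neg hk]
        omega
  obtain ⟨M', hM'⟩ : ∃ M', M = M' + 1 + 1 := ⟨M - 2, by omega⟩
  -- the lowered function
  set u : (Fin n →₀ ℕ) → ℚ := fun w => -∑ c, Yc D c (Level.D (cv n D) (η c)) w with hu
  have hvu : ∀ w : Fin n →₀ ℕ, (∀ c, w c ≤ D) → Fl D v w = u w := by
    intro w hw
    rw [hv, Fl_sub, hy, Fl_inv hDF hsupp w, zero_sub, hu]
    simp only
    rw [Fl_sum]
    congr 1
    exact Finset.sum_congr rfl fun c _ => Fl_Yc c (η c) hw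
  have hu0 : ∀ w : Fin n →₀ ℕ, (∀ c, w c ≤ D) → Fl D u w = 0 := by
    intro w hw
    have h1 : u = fun w => (-1) * ∑ c, Yc D c (Level.D (cv n D) (η c)) w := by
      funext w
      rw [hu]
      ring
    rw [h1, Fl_smul, Fl_sum, Finset.sum_eq_zero, mul_zero]
    intro c _
    rw [Fl_Yc c _ hw]
    unfold Yc
    split_ifs with hc
    · apply hη3
      intro k
      rw [Finsupp.add_apply, Finsupp.single_apply]
      have := hw k
      by_cases hk : c = k
      · subst hk
        rw [if_pos rfl]
        omega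
      · rw [if_neg hk]
        omega
    · rfl
  -- the corrected function vanishes
  set κ : ℚ := 2 * (D : ℚ) + 1 with hκ
  have hκ0 : κ ≠ 0 := by
    have : (0 : ℚ) ≤ D := Nat.cast_nonneg D
    rw [hκ]
    linarith
  have hκ' : ((n * D : ℕ) : ℚ) - 2 * ((M' + 1 : ℕ) : ℚ) = κ := by
    have : ((n * D + 1 : ℕ) : ℚ) = ((2 * (M + D) : ℕ) : ℚ) := by rw [hnD]
    rw [hM'] at this
    push_cast at this ⊢
    rw [hκ]
    linarith
  have hmain : ∀ w ∈ Bs n (D + 1) 1 (M' + 1 + 1), (fun w => v w - κ⁻¹ * Rs u w) w = 0 := by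
    apply norm0 (z := fun w => z w - κ⁻¹ * u w)
    · intro w hw
      show v w - κ⁻¹ * Rs u w = Rs (fun w => z w - κ⁻¹ * u w) w
      rw [hvz w (by rw [hM']; exact hw)]
      unfold Rs
      rw [Finset.mul_sum, ← Finset.sum_sub_distrib]
      refine Finset.sum_congr rfl fun j _ => ?_
      split_ifs <;> ring
    · intro w hw
      have hwb := (mem_box.1 hw).2
      rw [Fl_sub, hvu w hwb, Fl_smul, Fl_Rs (fun w hw => hu0 w (mem_box.1 hw).2) hw, hκ']
      rw [← mul_assoc, inv_mul_cancel₀ hκ0, one_mul, sub_self]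
  -- evaluate
  have hv₀d : v₀.degree = M := degree_of_coeff hF hv₀
  have h1 := hmain v₀ (by
    rw [mem_box]
    exact ⟨by omega, hsupp v₀ (mem_support_iff.2 hv₀)⟩)
  simp only at h1
  have h2 : Rs u v₀ = 0 := by
    unfold Rs
    refine Finset.sum_eq_zero fun j _ => ?_
    rw [if_neg (by have := hv1 j; omega), hu]
    simp only
    rw [Finset.sum_eq_zero, neg_zero]
    intro c _
    unfold Yc
    rw [if_neg]
    rw [Finsupp.tsub_apply, Finsupp.single_apply]
    have := hv1 c
    split_ifs <;> omega
  rw [h2, mul_zero, sub_zero, hv] at h1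
  simp only at h1
  rw [Finset.sum_eq_zero (fun c _ => by
    unfold Yc
    rw [if_neg]
    have := hv1 c
    omega), sub_zero, hy] at h1
  rcases mul_eq_zero.1 h1 with h | h
  · exact hv₀ h
  · rw [Finset.prod_eq_zero_iff] at h
    obtain ⟨j, _, hj⟩ := h
    exact Nat.factorial_ne_zero _ (by exact_mod_cast hj)

/-- The criterion over a field of characteristic zero. -/
theorem not_inj_crit_odd {K : Type*} [Field K] [CharZero K] {D M : ℕ} (hM : 2 ≤ M) (hD : 1 ≤ D)
    (hnD : 2 * (M + D) = n * D + 1)
    (F : MvPolynomial (Fin n) ℚ) (hF : F.IsHomogeneous M) (hDF : ∑ c, pderiv c F = 0)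
    (hsupp : ∀ m ∈ F.support, ∀ c, m c ≤ D) {v₀ : Fin n →₀ ℕ} (hv₀ : coeff v₀ F ≠ 0)
    (hv1 : ∀ c, 2 ≤ v₀ c) : ¬ InjAt K n (D + 1) 2 (M + 2 * D - 1) 1 := fun h =>
  not_inj_crit_odd_rat hM hD hnD F hF hDF hsupp hv₀ hv1 (injAt_rat (by omega) h)

end Pool.Agent.W5h40.WlpE
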