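import Pool.Agent.W5h40.Wlp.Func

set_option autoImplicit false

open MvPolynomial

namespace Pool.Agent.W5h40.WlpE

open Pool.Agent.Helper720.Pow Pool.Agent.W5h40.Wlp

variable {n : ℕ}

lemma exists_dist {h : ℕ} (lo hi : Fin h → ℕ) (hlo : ∀ r, lo r ≤ hi r) {N : ℕ}
    (h1 : ∑ r, lo r ≤ N) (h2 : N ≤ ∑ r, hi r) :
    ∃ m : Fin h → ℕ, (∀ r, lo r ≤ m r ∧ m r ≤ hi r) ∧ ∑ r, m r = N := by
  classical
  obtain ⟨t, rfl⟩ := Nat.exists_eq_add_of_le h1
  clear h1
  induction t with
  | zero => exact ⟨lo, fun r => ⟨le_rfl, hlo r⟩, rfl⟩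
  | succ t ih =>
    obtain ⟨m, hm, hs⟩ := ih (by omega)
    obtain ⟨r, hr⟩ : ∃ r, m r < hi r := by
      by_contra hcon
      push Not at hcon
      have := Finset.sum_le_sum fun r (_ : r ∈ Finset.univ) => hcon r
      omega
    refine ⟨Function.update m r (m r + 1), fun s => ?_, ?_⟩
    · by_cases hs' : s = r
      · subst hs'
        rw [Function.update_self]
        have := hm s
        omega
      · rw [Function.update_of_ne hs']
        exact hm s
    · rw [← Finset.add_sum_erase _ _ (Finset.mem_univ r), Function.update_self]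
      rw [← Finset.add_sum_erase _ _ (Finset.mem_univ r)] at hs
      have : ∑ x ∈ Finset.univ.erase r, Function.update m r (m r + 1) x =
          ∑ x ∈ Finset.univ.erase r, m x :=
        Finset.sum_congr rfl fun x hx => Function.update_of_ne (Finset.ne_of_mem_erase hx) _ _
      omega

section sign

variable (A : Fin n → Prop) [DecidablePred A]

/-- the sign attached to a monomial -/
def sgn (w : Fin n →₀ ℕ) : ℚ := ∏ v, (if A v then (1 : ℚ) else (-1) ^ w v)

variable {A}

lemma sgn_sub_pos {w : Fin n →₀ ℕ} {v : Fin n} (hv : A v) :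
    sgn A (w - Finsupp.single v 1) = sgn A w := by
  unfold sgn
  refine Finset.prod_congr rfl fun c _ => ?_
  by_cases hc : A c
  · rw [if_pos hc, if_pos hc]
  · rw [if_neg hc, if_neg hc, Finsupp.tsub_apply, Finsupp.single_apply, if_neg, Nat.sub_zero]
    rintro rfl
    exact hc hv

lemma sgn_sub_neg {w : Fin n →₀ ℕ} {v : Fin n} (hv : ¬ A v) (hw : w v ≠ 0) :
    sgn A (w - Finsupp.single v 1) = - sgn A w := by
  unfold sgn
  rw [← Finset.mul_prod_erase _ _ (Finset.mem_univ v),
    ← Finset.mul_prod_erase Finset.univ (fun c => if A c then (1 : ℚ) else (-1) ^ w c)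
      (Finset.mem_univ v), if_neg hv, if_neg hv, ← neg_mul]
  congr 1
  · rw [Finsupp.tsub_apply, Finsupp.single_eq_same]
    obtain ⟨r, hr⟩ : ∃ r, w v = r + 1 := ⟨w v - 1, by omega⟩
    rw [hr, Nat.add_sub_cancel, pow_succ]
    ring
  · refine Finset.prod_congr rfl fun c hc => ?_
    rw [Finsupp.tsub_apply, Finsupp.single_apply, if_neg (Ne.symm (Finset.ne_of_mem_erase hc)),
      Nat.sub_zero]

lemma coeff_FL_cons (p : Fin n × Fin n) (L : List (Fin n × Fin n)) (w : Fin n →₀ ℕ) :
    coeff w (FL ℚ n (p :: L)) =
      (if w p.1 = 0 then 0 else coeff (w - Finsupp.single p.1 1) (FL ℚ n L)) -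
      (if w p.2 = 0 then 0 else coeff (w - Finsupp.single p.2 1) (FL ℚ n L)) := by
  rw [FL_cons, sub_mul, coeff_sub, coeff_X_mul', coeff_X_mul']
  congr 1
  · by_cases h : w p.1 = 0
    · rw [if_neg (by simpa using h), if_pos h]
    · rw [if_pos (by simpa using h), if_neg h]
  · by_cases h : w p.2 = 0
    · rw [if_neg (by simpa using h), if_pos h]
    · rw [if_pos (by simpa using h), if_neg h]

lemma sgn_coeff_cons {p : Fin n × Fin n} (hp1 : A p.1) (hp2 : ¬ A p.2) (L : List (Fin n × Fin n))
    (w : Fin n →₀ ℕ) :
    sgn A w * coeff w (FL ℚ n (p :: L)) =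
      (if w p.1 = 0 then 0 else sgn A (w - Finsupp.single p.1 1) *
        coeff (w - Finsupp.single p.1 1) (FL ℚ n L)) +
      (if w p.2 = 0 then 0 else sgn A (w - Finsupp.single p.2 1) *
        coeff (w - Finsupp.single p.2 1) (FL ℚ n L)) := by
  rw [coeff_FL_cons, mul_sub, sub_eq_add_neg]
  congr 1
  · split_ifs with h
    · rw [mul_zero]
    · rw [sgn_sub_pos hp1]
  · split_ifs with h
    · rw [mul_zero, neg_zero]
    · rw [sgn_sub_neg hp2 h]
      ring

lemma sgn_coeff_nonneg (L : List (Fin n × Fin n)) (hL : ∀ p ∈ L, A p.1 ∧ ¬ A p.2)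
    (w : Fin n →₀ ℕ) : 0 ≤ sgn A w * coeff w (FL ℚ n L) := by
  induction L generalizing w with
  | nil =>
    unfold FL
    rw [List.map_nil, List.prod_nil, coeff_one]
    by_cases h : (0 : Fin n →₀ ℕ) = w
    · subst h
      rw [if_pos rfl, mul_one]
      unfold sgn
      refine Finset.prod_nonneg fun c _ => ?_
      split_ifs
      · exact zero_le_one
      · rw [Finsupp.zero_apply, pow_zero]
        exact zero_le_one
    · rw [if_neg h, mul_zero]
  | cons p L ih =>
    have hp := hL p (List.mem_cons_self ..)
    have hL' : ∀ q ∈ L, A q.1 ∧ ¬ A q.2 := fun q hq => hL q (List.mem_cons_of_mem _ hq)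
    rw [sgn_coeff_cons hp.1 hp.2]
    refine add_nonneg ?_ ?_
    · split_ifs
      · exact le_rfl
      · exact ih hL' _
    · split_ifs
      · exact le_rfl
      · exact ih hL' _

/-- the monomial of a list of variables -/
noncomputable def ws : List (Fin n) → (Fin n →₀ ℕ)
  | [] => 0
  | c :: C => Finsupp.single c 1 + ws C

lemma ws_pos {C : List (Fin n)} {v : Fin n} (hv : v ∈ C) : 1 ≤ ws C v := by
  induction C with
  | nil => exact absurd hv (by simp)
  | cons c C ih =>
    rw [ws, Finsupp.add_apply]
    rcases List.mem_cons.1 hv with rfl | h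
    · rw [Finsupp.single_eq_same]
      omega
    · have := ih h
      omega

lemma sgn_coeff_choice (T : List ((Fin n × Fin n) × Fin n))
    (hA : ∀ t ∈ T, A t.1.1 ∧ ¬ A t.1.2) (hT : ∀ t ∈ T, t.2 = t.1.1 ∨ t.2 = t.1.2) :
    1 ≤ sgn A (ws (T.map Prod.snd)) *
      coeff (ws (T.map Prod.snd)) (FL ℚ n (T.map Prod.fst)) := by
  induction T with
  | nil =>
    have h0 : ws (List.map Prod.snd ([] : List ((Fin n × Fin n) × Fin n))) = 0 := rfl
    have h1 : FL ℚ n (List.map Prod.fst ([] : List ((Fin n × Fin n) × Fin n))) = 1 := rfl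
    rw [h0, h1, coeff_one, if_pos rfl, mul_one]
    unfold sgn
    rw [Finset.prod_eq_one]
    intro c _
    rw [Finsupp.zero_apply, pow_zero, ite_self]
  | cons t T ih =>
    have hp := hA t (List.mem_cons_self ..)
    have hA' : ∀ q ∈ T, A q.1.1 ∧ ¬ A q.1.2 := fun q hq => hA q (List.mem_cons_of_mem _ hq)
    have hT' : ∀ q ∈ T, q.2 = q.1.1 ∨ q.2 = q.1.2 := fun q hq => hT q (List.mem_cons_of_mem _ hq)
    have h0 := ih hA' hT'
    have hnn : ∀ w, 0 ≤ sgn A w * coeff w (FL ℚ n (T.map Prod.fst)) := by
      intro w
      apply sgn_coeff_nonneg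
      intro p hp
      obtain ⟨q, hq, rfl⟩ := List.mem_map.1 hp
      exact hA' q hq
    rw [List.map_cons, List.map_cons, sgn_coeff_cons hp.1 hp.2]
    have h1 : ws (t.2 :: T.map Prod.snd) = Finsupp.single t.2 1 + ws (T.map Prod.snd) := rfl
    rcases hT t (List.mem_cons_self ..) with h | h
    · have h2 : (ws (t.2 :: T.map Prod.snd)) t.1.1 ≠ 0 := by
        rw [h1, h, Finsupp.add_apply, Finsupp.single_eq_same]
        omega
      have h3 : ws (t.2 :: T.map Prod.snd) - Finsupp.single t.1.1 1 = ws (T.map Prod.snd) := by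
        rw [h1, h, add_tsub_cancel_left]
      rw [if_neg h2, h3]
      have h4 : (0 : ℚ) ≤ (if (ws (t.2 :: T.map Prod.snd)) t.1.2 = 0 then 0 else
          sgn A (ws (t.2 :: T.map Prod.snd) - Finsupp.single t.1.2 1) *
          coeff (ws (t.2 :: T.map Prod.snd) - Finsupp.single t.1.2 1)
            (FL ℚ n (T.map Prod.fst))) := by
        split_ifs
        · exact le_rfl
        · exact hnn _
      linarith
    · have h2 : (ws (t.2 :: T.map Prod.snd)) t.1.2 ≠ 0 := by
        rw [h1, h, Finsupp.add_apply, Finsupp.single_eq_same]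
        omega
      have h3 : ws (t.2 :: T.map Prod.snd) - Finsupp.single t.1.2 1 = ws (T.map Prod.snd) := by
        rw [h1, h, add_tsub_cancel_left]
      rw [if_neg h2, h3]
      have h4 : (0 : ℚ) ≤ (if (ws (t.2 :: T.map Prod.snd)) t.1.1 = 0 then 0 else
          sgn A (ws (t.2 :: T.map Prod.snd) - Finsupp.single t.1.1 1) *
          coeff (ws (t.2 :: T.map Prod.snd) - Finsupp.single t.1.1 1)
            (FL ℚ n (T.map Prod.fst))) := by
        split_ifs
        · exact le_rfl
        · exact hnn _
      linarith

/-- the polynomial attached to a list of edges with chosen endpoints -/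
lemma forest_of_list {D M : ℕ} (T : List ((Fin n × Fin n) × Fin n))
    (hA : ∀ t ∈ T, A t.1.1 ∧ ¬ A t.1.2) (hT : ∀ t ∈ T, t.2 = t.1.1 ∨ t.2 = t.1.2)
    (hlen : T.length = M) (hdeg : ∀ c, dg (T.map Prod.fst) c ≤ D) (hcov : ∀ c, ∃ t ∈ T, t.2 = c) :
    ∃ F : MvPolynomial (Fin n) ℚ, F.IsHomogeneous M ∧ ∑ c, pderiv c F = 0 ∧
      (∀ m ∈ F.support, ∀ c, m c ≤ D) ∧ ∃ v₀, coeff v₀ F ≠ 0 ∧ ∀ c, 1 ≤ v₀ c := by
  refine ⟨FL ℚ n (T.map Prod.fst), ?_, FL_D _, ?_, ws (T.map Prod.snd), ?_, ?_⟩
  · have := FL_hom (K := ℚ) (T.map Prod.fst)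
    rwa [List.length_map, hlen] at this
  · intro m hm c
    refine (supp_le ?_ hm c).trans (hdeg c)
    intro p hp
    obtain ⟨q, hq, rfl⟩ := List.mem_map.1 hp
    intro h
    exact (hA q hq).2 (h ▸ (hA q hq).1)
  · intro h
    have := sgn_coeff_choice T hA hT
    rw [h, mul_zero] at this
    linarith
  · intro c
    obtain ⟨t, ht, rfl⟩ := hcov c
    exact ws_pos (List.mem_map.2 ⟨t, ht, rfl⟩)

end sign

/-- the edges of the pairs -/
def TT {h : ℕ} (a b : Fin h → Fin n) (m : Fin h → ℕ) : List ((Fin n × Fin n) × Fin n) :=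
  (List.finRange h).flatMap fun r =>
    ((a r, b r), a r) :: List.replicate (m r - 1) ((a r, b r), b r)

lemma TT_mem {h : ℕ} {a b : Fin h → Fin n} {m : Fin h → ℕ} {t : (Fin n × Fin n) × Fin n}
    (ht : t ∈ TT a b m) : ∃ r, t.1 = (a r, b r) ∧ (t.2 = a r ∨ t.2 = b r) := by
  unfold TT at ht
  rw [List.mem_flatMap] at ht
  obtain ⟨r, _, hr⟩ := ht
  rcases List.mem_cons.1 hr with rfl | h
  · exact ⟨r, rfl, Or.inl rfl⟩
  · have := List.eq_of_mem_replicate h
    subst this
    exact ⟨r, rfl, Or.inr rfl⟩

lemma TT_length {h : ℕ} {a b : Fin h → Fin n} {m : Fin h → ℕ} (hm : ∀ r, 1 ≤ m r) :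
    (TT a b m).length = ∑ r, m r := by
  unfold TT
  rw [List.length_flatMap, Fin.sum_univ_def]
  congr 1
  refine List.map_congr_left fun r _ => ?_
  rw [List.length_cons, List.length_replicate]
  have := hm r
  omega

lemma TT_dg {h : ℕ} {a b : Fin h → Fin n} {m : Fin h → ℕ} (hm : ∀ r, 1 ≤ m r) (c : Fin n) :
    dg ((TT a b m).map Prod.fst) c = ∑ r, if a r = c ∨ b r = c then m r else 0 := by
  unfold TT dg
  rw [List.countP_map, List.countP_flatMap, Fin.sum_univ_def]
  congr 1
  refine List.map_congr_left fun r _ => ?_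
  simp only [Function.comp]
  rw [List.countP_cons, List.countP_replicate]
  have := hm r
  by_cases hr : a r = c ∨ b r = c
  · simp only [hr, decide_true, if_true, Function.comp]
    omega
  · simp only [hr, decide_false, if_false, Function.comp]
    simp

lemma TT_cov_a {h : ℕ} {a b : Fin h → Fin n} {m : Fin h → ℕ} (r : Fin h) :
    ∃ t ∈ TT a b m, t.2 = a r := by
  refine ⟨((a r, b r), a r), ?_, rfl⟩
  unfold TT
  rw [List.mem_flatMap]
  exact ⟨r, List.mem_finRange r, List.mem_cons_self ..⟩

lemma TT_cov_b {h : ℕ} {a b : Fin h → Fin n} {m : Fin h → ℕ} (r : Fin h) (hm : 2 ≤ m r) :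
    ∃ t ∈ TT a b m, t.2 = b r := by
  refine ⟨((a r, b r), b r), ?_, rfl⟩
  unfold TT
  rw [List.mem_flatMap]
  refine ⟨r, List.mem_finRange r, List.mem_cons_of_mem _ ?_⟩
  rw [List.mem_replicate]
  exact ⟨by omega, rfl⟩

theorem exists_forest {D M : ℕ} (hn : 4 ≤ n) (hnD : 2 * (M + D) = n * D) (hMn : n ≤ M) :
    ∃ F : MvPolynomial (Fin n) ℚ, F.IsHomogeneous M ∧ ∑ c, pderiv c F = 0 ∧
      (∀ m ∈ F.support, ∀ c, m c ≤ D) ∧ ∃ v₀, coeff v₀ F ≠ 0 ∧ ∀ c, 1 ≤ v₀ c := by
  classical
  obtain ⟨h, hh⟩ : ∃ h, n = h + h ∨ n = h + h + 1 := ⟨n / 2, by omega⟩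
  rcases hh with rfl | rfl
  · -- `n` even
    have h1 : 2 * (M + D) = 2 * (h * D) := by rw [hnD]; ring
    have hD2 : 2 ≤ D := by
      by_contra hcon
      have : h * D ≤ h * 1 := Nat.mul_le_mul_left _ (by omega)
      omega
    obtain ⟨m, hm, hs⟩ := exists_dist (h := h) (fun _ => 2) (fun _ => D) (fun _ => hD2) (N := M)
      (by rw [Finset.sum_const, Finset.card_univ, Fintype.card_fin, smul_eq_mul]; omega)
      (by rw [Finset.sum_const, Finset.card_univ, Fintype.card_fin, smul_eq_mul]; omega)
    let a : Fin h → Fin (h + h) := fun r => ⟨r, by omega⟩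
    let b : Fin h → Fin (h + h) := fun r => ⟨h + r, by omega⟩
    refine forest_of_list (A := fun v : Fin (h + h) => (v : ℕ) < h) (TT a b m) ?_ ?_ ?_ ?_ ?_
    · intro t ht
      obtain ⟨r, hr, _⟩ := TT_mem ht
      rw [hr]
      refine ⟨r.2, ?_⟩
      simp only [b]
      omega
    · intro t ht
      obtain ⟨r, hr, hr2⟩ := TT_mem ht
      rw [hr]
      exact hr2
    · rw [TT_length (fun r => by have := (hm r).1; omega), hs]
    · intro c
      rw [TT_dg (fun r => by have := (hm r).1; omega)]
      rcases Nat.lt_or_ge (c : ℕ) h with hc | hc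
      · rw [Finset.sum_eq_single ⟨c, hc⟩]
        · split_ifs
          · exact (hm _).2
          · exact Nat.zero_le _
        · intro r _ hr
          rw [if_neg]
          rintro (h2 | h2)
          · apply hr
            have h3 := congrArg Fin.val h2
            exact Fin.ext h3
          · have h3 := congrArg Fin.val h2
            simp only [b] at h3
            omega
        · intro h2
          exact absurd (Finset.mem_univ _) h2
      · rw [Finset.sum_eq_single ⟨c - h, by omega⟩]
        · split_ifs
          · exact (hm _).2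
          · exact Nat.zero_le _
        · intro r _ hr
          rw [if_neg]
          rintro (h2 | h2)
          · have h3 := congrArg Fin.val h2
            simp only [a] at h3
            omega
          · apply hr
            have h3 := congrArg Fin.val h2
            simp only [b] at h3
            apply Fin.ext
            simp only
            omega
        · intro h2
          exact absurd (Finset.mem_univ _) h2
    · intro c
      rcases Nat.lt_or_ge (c : ℕ) h with hc | hc
      · obtain ⟨t, ht, ht2⟩ := TT_cov_a (a := a) (b := b) (m := m) ⟨c, hc⟩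
        exact ⟨t, ht, ht2⟩
      · obtain ⟨t, ht, ht2⟩ := TT_cov_b (a := a) (b := b) (m := m) ⟨c - h, by omega⟩ (hm _).1
        refine ⟨t, ht, ht2.trans ?_⟩
        apply Fin.ext
        simp only [b]
        omega
  · -- `n` odd
    have h1 : 2 * (M + D) = 2 * (h * D) + D := by rw [hnD]; ring
    have hD3 : 3 ≤ D := by
      by_contra hcon
      have : h * D ≤ h * 2 := Nat.mul_le_mul_left _ (by omega)
      omega
    have hh2 : 2 ≤ h := by omega
    let r₀ : Fin h := ⟨0, by omega⟩
    obtain ⟨m, hm, hs⟩ := exists_dist (h := h) (fun _ => 2) (fun r => if r = r₀ then D - 1 else D)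
      (fun r => by split_ifs <;> omega) (N := M - 1)
      (by rw [Finset.sum_const, Finset.card_univ, Fintype.card_fin, smul_eq_mul]; omega)
      (by
        rw [← Finset.add_sum_erase _ _ (Finset.mem_univ r₀), if_pos rfl]
        have h3 : ∑ x ∈ Finset.univ.erase r₀, (if x = r₀ then D - 1 else D) =
            ∑ x ∈ Finset.univ.erase r₀, D :=
          Finset.sum_congr rfl fun x hx => if_neg (Finset.ne_of_mem_erase hx)
        rw [h3, Finset.sum_const, Finset.card_erase_of_mem (Finset.mem_univ _), Finset.card_univ,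
          Fintype.card_fin, smul_eq_mul]
        have h4 : h * D = (h - 1) * D + D := by
          obtain ⟨s, rfl⟩ : ∃ s, h = s + 1 := ⟨h - 1, by omega⟩
          rw [Nat.add_sub_cancel]
          ring
        omega)
    let a : Fin h → Fin (h + h + 1) := fun r => ⟨r, by omega⟩
    let b : Fin h → Fin (h + h + 1) := fun r => ⟨h + r, by omega⟩
    let x : Fin (h + h + 1) := ⟨h + h, by omega⟩
    have hmD : ∀ r, m r ≤ D := by
      intro r
      have := (hm r).2
      split_ifs at this <;> omega
    refine forest_of_list (A := fun v : Fin (h + h + 1) => (v : ℕ) < h)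
      (((a r₀, x), x) :: TT a b m) ?_ ?_ ?_ ?_ ?_
    · intro t ht
      rcases List.mem_cons.1 ht with rfl | ht
      · simp only [a, x, r₀]
        omega
      · obtain ⟨r, hr, _⟩ := TT_mem ht
        rw [hr]
        refine ⟨r.2, ?_⟩
        simp only [b]
        omega
    · intro t ht
      rcases List.mem_cons.1 ht with rfl | ht
      · exact Or.inr rfl
      · obtain ⟨r, hr, hr2⟩ := TT_mem ht
        rw [hr]
        exact hr2
    · rw [List.length_cons, TT_length (fun r => by have := (hm r).1; omega), hs]
      omega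
    · intro c
      have hcons : dg ((((a r₀, x), x) :: TT a b m).map Prod.fst) c =
          dg ((TT a b m).map Prod.fst) c + if a r₀ = c ∨ x = c then 1 else 0 := by
        unfold dg
        rw [List.map_cons, List.countP_cons]
        simp
      rw [hcons, TT_dg (fun r => by have := (hm r).1; omega)]
      rcases Nat.lt_or_ge (c : ℕ) h with hc | hc
      · rw [Finset.sum_eq_single ⟨c, hc⟩]
        · rw [if_pos (Or.inl (by apply Fin.ext; rfl))]
          by_cases h2 : a r₀ = c
          · have h3 : (⟨c, hc⟩ : Fin h) = r₀ := by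
              apply Fin.ext
              have := congrArg Fin.val h2
              simp only [a] at this
              exact this.symm
            have h4 := (hm ⟨c, hc⟩).2
            rw [if_pos h3] at h4
            split_ifs <;> omega
          · have h3 : ¬ (a r₀ = c ∨ x = c) := by
              rintro (h4 | h4)
              · exact h2 h4
              · have := congrArg Fin.val h4
                simp only [x] at this
                omega
            rw [if_neg h3]
            exact hmD _
        · intro r _ hr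
          rw [if_neg]
          rintro (h2 | h2)
          · apply hr
            have h3 := congrArg Fin.val h2
            exact Fin.ext h3
          · have h3 := congrArg Fin.val h2
            simp only [b] at h3
            omega
        · intro h2
          exact absurd (Finset.mem_univ _) h2
      · rcases Nat.lt_or_ge (c : ℕ) (h + h) with hc2 | hc2
        · rw [Finset.sum_eq_single ⟨c - h, by omega⟩]
          · have h3 : ¬ (a r₀ = c ∨ x = c) := by
              rintro (h4 | h4)
              · have := congrArg Fin.val h4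
                simp only [a, r₀] at this
                omega
              · have := congrArg Fin.val h4
                simp only [x] at this
                omega
            rw [if_neg h3, add_zero]
            split_ifs
            · exact hmD _
            · exact Nat.zero_le _
          · intro r _ hr
            rw [if_neg]
            rintro (h2 | h2)
            · have h3 := congrArg Fin.val h2
              simp only [a] at h3
              omega
            · apply hr
              have h3 := congrArg Fin.val h2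
              simp only [b] at h3
              apply Fin.ext
              simp only
              omega
          · intro h2
            exact absurd (Finset.mem_univ _) h2
        · rw [Finset.sum_eq_zero]
          · split_ifs <;> omega
          · intro r _
            rw [if_neg]
            rintro (h2 | h2)
            · have h3 := congrArg Fin.val h2
              simp only [a] at h3
              omega
            · have h3 := congrArg Fin.val h2
              simp only [b] at h3
              omega
    · intro c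
      rcases Nat.lt_or_ge (c : ℕ) h with hc | hc
      · obtain ⟨t, ht, ht2⟩ := TT_cov_a (a := a) (b := b) (m := m) ⟨c, hc⟩
        exact ⟨t, List.mem_cons_of_mem _ ht, ht2⟩
      · rcases Nat.lt_or_ge (c : ℕ) (h + h) with hc2 | hc2
        · obtain ⟨t, ht, ht2⟩ := TT_cov_b (a := a) (b := b) (m := m) ⟨c - h, by omega⟩ (hm _).1
          refine ⟨t, List.mem_cons_of_mem _ ht, ht2.trans ?_⟩
          apply Fin.ext
          simp only [b]
          omega
        · refine ⟨_, List.mem_cons_self .., ?_⟩
          apply Fin.ext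
          simp only [x]
          omega

end Pool.Agent.W5h40.WlpE
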