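import Pool.Agent.W5h40.WlpE.Three2
import Pool.Agent.W5h40.WlpE.Forest
import Pool.Agent.W5h40.Wlp4.Main

set_option autoImplicit false

open MvPolynomial

namespace Pool.Agent.W5h40.WlpE

open Pool.Agent.Helper720.Pow Pool.Agent.W5h40.Wlp

variable {K : Type*} [Field K] {n : ℕ}

lemma fl_add_mul {d : ℕ} (hd : 1 ≤ d) (a : Fin n → ℕ) (u : Fin n →₀ ℕ) :
    fl d ((Finsupp.equivFunOnFinite.symm fun j => d * a j) + u) = ∑ j, a j + fl d u := by
  unfold fl
  rw [← Finset.sum_add_distrib]
  refine Finset.sum_congr rfl fun j _ => ?_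
  rw [Finsupp.add_apply]
  show (d * a j + u j) / d = a j + u j / d
  rw [Nat.mul_add_div (by omega)]

/-- Surjectivity from the middle degree on. -/
theorem surj_pow [CharZero K] {d k i : ℕ} (hd : 1 ≤ d) (hk : 1 ≤ k) (hi : (k - 1) * d ≤ i)
    (h : n * (d - 1) ≤ 1 + 2 * (i - (k - 1) * d)) : SurjAt K n d k i 1 := by
  obtain ⟨k, rfl⟩ : ∃ k', k = k' + 1 := ⟨k - 1, by omega⟩
  rw [Nat.add_sub_cancel] at hi h
  clear hk
  induction k with
  | zero => exact surj_k1 hd (by rw [zero_mul] at h; omega)
  | succ k ih =>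
    have e1 : (k + 1) * d = k * d + d := by ring
    have ih' := ih (by omega) (by omega)
    intro g hg
    obtain ⟨f₀, hf₀, hgf⟩ := ih' g hg
    have hhom : (g - el K n ^ 1 * f₀).IsHomogeneous (i + 1) := hg.sub (el_pow_mul_hom 1 hf₀)
    rw [mem_powIdeal hd] at hgf
    obtain ⟨f₁, hf₁, hgf₁⟩ := surj_sum (J := powIdeal K n d (k + 1 + 1)) (i := i) (j := 1)
      (g - el K n ^ 1 * f₀) (by
        intro w hw
        rw [mem_support_iff] at hw
        have hwd := degree_of_coeff hhom hw
        have hwfl : k + 1 ≤ fl d w := by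
          by_contra hlt
          exact hw (hgf w (by omega))
        rcases Nat.lt_or_ge (k + 1) (fl d w) with hbig | hsmall
        · refine ⟨0, isHomogeneous_zero _ _ _, ?_⟩
          rw [mul_zero, sub_zero, mem_powIdeal hd]
          intro m hm
          rw [coeff_monomial, if_neg]
          rintro rfl
          omega
        · have hfl : fl d w = k + 1 := by omega
          set A : Fin n →₀ ℕ := Finsupp.equivFunOnFinite.symm fun j => d * (w j / d) with hA
          have hAw : A ≤ w := fun j => Nat.mul_div_le (w j) d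
          have hAd : A.degree = (k + 1) * d := by
            rw [Finsupp.degree_eq_sum]
            show ∑ j, d * (w j / d) = _
            rw [← Finset.mul_sum, mul_comm]
            congr 1
          have hsum : (w - A).degree + A.degree = w.degree := by
            rw [← map_add, tsub_add_cancel_of_le hAw]
          have hs1 : SurjAt K n d 1 (i - (k + 1) * d) 1 := surj_k1 hd (by omega)
          obtain ⟨f, hf, hfm⟩ := hs1 (monomial (w - A) 1) (isHomogeneous_monomial _ (by omega))
          refine ⟨monomial A 1 * f, ?_, ?_⟩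
          · have := (isHomogeneous_monomial (1 : K) hAd).mul hf
            rwa [show (k + 1) * d + (i - (k + 1) * d) = i by omega] at this
          · have e2 : monomial w 1 - el K n ^ 1 * (monomial A 1 * f) =
                monomial A 1 * (monomial (w - A) 1 - el K n ^ 1 * f) := by
              rw [mul_sub, monomial_mul, one_mul, add_tsub_cancel_of_le hAw]
              ring
            rw [e2, mem_powIdeal hd]
            rw [mem_powIdeal hd] at hfm
            intro m hm
            rw [coeff_monomial_mul']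
            split_ifs with hle
            · rw [one_mul]
              apply hfm
              have h1 : A + (m - A) = m := add_tsub_cancel_of_le hle
              have h2 := fl_add_mul hd (fun j => w j / d) (m - A)
              rw [← hA, h1] at h2
              have h3 : ∑ j, w j / d = k + 1 := hfl
              omega
            · rfl)
    refine ⟨f₀ + f₁, hf₀.add hf₁, ?_⟩
    rw [mul_add, ← sub_sub]
    exact hgf₁

theorem surj_mid [CharZero K] {d k i : ℕ} (hd : 1 ≤ d) (hk : 1 ≤ k)
    (hi : i = (k - 1) * d + n * (d - 1) / 2) : SurjAt K n d k i 1 :=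
  surj_pow hd hk (by omega) (by omega)

/-- The weak Lefschetz property only depends on the map to the middle degree. -/
theorem rank_of_inj_mid [CharZero K] (hn : 1 ≤ n) {d k i : ℕ} (hd : 1 ≤ d) (hk : 1 ≤ k)
    (hi : i + 1 = (k - 1) * d + n * (d - 1) / 2) (h : InjAt K n d k i 1) (j : ℕ) :
    InjAt K n d k j 1 ∨ SurjAt K n d k j 1 := by
  rcases Nat.lt_or_ge i j with h1 | h1
  · exact Or.inr (surj_above hd h1 (surj_mid hd hk hi))
  · exact Or.inl (inj_below hn hd h1 (by omega) h)

/-- `d = 3`, `k = 2` -/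
theorem rank_three [CharZero K] (hn : 1 ≤ n) (j : ℕ) :
    InjAt K n 3 2 j 1 ∨ SurjAt K n 3 2 j 1 :=
  rank_of_inj_mid hn (by norm_num) (by norm_num) (i := n + 2) (by omega) (inj_three hn) j

/-- `k = 2`, `n (d - 1)` even -/
theorem not_inj_two [CharZero K] {d i : ℕ} (hn : 4 ≤ n) (he : 2 ∣ n * (d - 1))
    (hd : 2 * n ≤ (n - 2) * (d - 1))
    (hi : i + 1 = (2 - 1) * d + n * (d - 1) / 2) : ¬ InjAt K n d 2 i 1 := by
  obtain ⟨D, rfl⟩ : ∃ D, d = D + 1 := by
    refine ⟨d - 1, ?_⟩
    rcases Nat.eq_zero_or_pos d with h | h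
    · rw [h] at hd
      simp only [zero_tsub, mul_zero] at hd
      omega
    · omega
  rw [Nat.add_sub_cancel] at he hd hi
  obtain ⟨n', rfl⟩ : ∃ n', n = n' + 2 := ⟨n - 2, by omega⟩
  rw [Nat.add_sub_cancel] at hd
  obtain ⟨q, hq⟩ := he
  have e1 : (n' + 2) * D = n' * D + 2 * D := by ring
  have hM : 2 * (q - D + D) = (n' + 2) * D := by
    rw [Nat.sub_add_cancel (by omega), hq]
  obtain ⟨F, h1, h2, h3, v₀, h4, h5⟩ := exists_forest (n := n' + 2) (D := D) (M := q - D) hn hM
    (by omega)
  have h6 := not_inj_crit (K := K) (by omega) hM F h1 h2 h3 h4 h5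
  have h7 : i = q - D + 2 * D := by omega
  rw [h7]
  exact h6

/-- the cases with the weak Lefschetz property, `n (d - 1)` even -/
def GoodE (n d k : ℕ) : Prop :=
  d = 1 ∨ k = 1 ∨ (k = 2 ∧ d ≤ 3) ∨ (n = 4 ∧ ((d = 2 ∧ k = 3) ∨ (d = 4 ∧ k = 2)))

theorem not_maxRankE [CharZero K] {d k i : ℕ} (hn : 4 ≤ n) (hd : 1 ≤ d) (hk : 1 ≤ k)
    (he : 2 ∣ n * (d - 1)) (h : ¬ GoodE n d k) (hi : i + 1 = (k - 1) * d + n * (d - 1) / 2)
    {L : MvPolynomial (Fin n) K} (hL : L.IsHomogeneous 1) :
    ¬ MaxRank (powIdeal K n d k) L i := by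
  unfold GoodE at h
  push Not at h
  obtain ⟨h1, h2, h3, h4⟩ := h
  rcases Nat.lt_or_ge n 5 with hn5 | hn5
  · obtain rfl : n = 4 := by omega
    refine Wlp4.not_maxRank4 hd hk ?_ hi hL
    unfold Wlp4.Good4
    have := h4 rfl
    omega
  · intro hm
    rcases maxRank_test hd hL hm with h5 | h5
    · rcases (by omega : k = 2 ∨ 3 ≤ k) with rfl | hk3
      · have hd4 : 4 ≤ d := by
          have := h3 rfl
          omega
        refine not_inj_two hn he ?_ hi h5
        obtain ⟨n', rfl⟩ : ∃ n', n = n' + 2 := ⟨n - 2, by omega⟩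
        rw [Nat.add_sub_cancel]
        rcases Nat.lt_or_ge n' 4 with h6 | h6
        · obtain rfl : n' = 3 := by omega
          omega
        · calc 2 * (n' + 2) ≤ n' * 3 := by omega
            _ ≤ n' * (d - 1) := Nat.mul_le_mul_left _ (by omega)
      · exact not_inj_even hn5 (by omega) hk3 hi he h5
    · exact not_surj_mid hn hd hk hi h5

theorem rankE [CharZero K] {d k : ℕ} (hn : 4 ≤ n) (hd : 1 ≤ d) (hk : 1 ≤ k) (h : GoodE n d k)
    (i : ℕ) : InjAt K n d k i 1 ∨ SurjAt K n d k i 1 := by
  have hslp : HasSLP (powIdeal K n d k) → InjAt K n d k i 1 ∨ SurjAt K n d k i 1 := by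
    intro h
    rw [hasSLP_iff hd] at h
    exact h i 1 le_rfl
  rcases h with rfl | rfl | ⟨rfl, hd3⟩ | ⟨rfl, h⟩
  · exact hslp (slp_d1 (by omega))
  · exact hslp (slp_k1 hd)
  · rcases (by omega : d = 1 ∨ d = 2 ∨ d = 3) with rfl | rfl | rfl
    · exact hslp (slp_d1 (by omega))
    · exact hslp (slp_22 (by omega))
    · exact rank_three (by omega) i
  · refine Wlp4.rank4 hd hk ?_ i
    unfold Wlp4.Good4
    omega

/-- maximal rank for all linear forms with nonzero coefficients -/
theorem maxRank_of_rank [CharZero K] {d k : ℕ} (hd : 1 ≤ d) {i : ℕ}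
    (h : InjAt K n d k i 1 ∨ SurjAt K n d k i 1) {a : Fin n → K} (ha : ∀ c, a c ≠ 0) :
    MaxRank (powIdeal K n d k) (∑ c, C (a c) * X c) i := by
  rcases h with h1 | h1
  · left
    have := torus_inj ha hd h1
    intro f hf hJ
    apply this f hf
    rw [pow_one]
    exact hJ
  · right
    have := torus_surj ha hd h1
    intro g hg
    obtain ⟨f, hf, hfg⟩ := this g hg
    refine ⟨f, hf, ?_⟩
    rw [pow_one] at hfg
    exact hfg

end Pool.Agent.W5h40.WlpE
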