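import Pool.Agent.W5h40.WlpE.Forest

set_option autoImplicit false

open MvPolynomial

namespace Pool.Agent.W5h40.WlpE

open Pool.Agent.Helper720.Pow Pool.Agent.W5h40.Wlp

variable {n : ℕ}

lemma ws_eq (C : List (Fin n)) (v : Fin n) : ws C v = C.count v := by
  induction C with
  | nil => rfl
  | cons c C ih =>
    rw [ws, Finsupp.add_apply, List.count_cons, ih, Finsupp.single_apply, add_comm]
    congr 1
    by_cases h : c = v
    · simp [h]
    · simp [h]

lemma forest_of_list2 (A : Fin n → Prop) [DecidablePred A] {D M : ℕ}
    (T : List ((Fin n × Fin n) × Fin n))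
    (hA : ∀ t ∈ T, A t.1.1 ∧ ¬ A t.1.2) (hT : ∀ t ∈ T, t.2 = t.1.1 ∨ t.2 = t.1.2)
    (hlen : T.length = M) (hdeg : ∀ c, dg (T.map Prod.fst) c ≤ D)
    (hcov : ∀ c, 2 ≤ (T.map Prod.snd).count c) :
    ∃ F : MvPolynomial (Fin n) ℚ, F.IsHomogeneous M ∧ ∑ c, pderiv c F = 0 ∧
      (∀ m ∈ F.support, ∀ c, m c ≤ D) ∧ ∃ v₀, coeff v₀ F ≠ 0 ∧ ∀ c, 2 ≤ v₀ c := by
  refine ⟨FL ℚ n (T.map Prod.fst), ?_, FL_D _, ?_, ws (T.map Prod.snd), ?_, ?_⟩
  · have := FL_hom (K := ℚ) (T.map Prod.fst)
    rwa [List.length_map, hlen] at this
  · intro m hm c
    refine (supp_le ?_ hm c).trans (hdeg c)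
    intro p hp
    obtain ⟨q, hq, rfl⟩ := List.mem_map.1 hp
    intro h
    exact (hA q hq).2 (h ▸ (hA q hq).1)
  · intro h
    have := sgn_coeff_choice T hA hT
    rw [h, mul_zero] at this
    linarith
  · intro c
    rw [ws_eq]
    exact hcov c

/-- the edges of the pairs -/
def TT2 {h : ℕ} (a b : Fin h → Fin n) (m : Fin h → ℕ) : List ((Fin n × Fin n) × Fin n) :=
  (List.finRange h).flatMap fun r =>
    List.replicate 2 ((a r, b r), a r) ++ List.replicate (m r - 2) ((a r, b r), b r)

lemma TT2_mem {h : ℕ} {a b : Fin h → Fin n} {m : Fin h → ℕ} {t : (Fin n × Fin n) × Fin n}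
    (ht : t ∈ TT2 a b m) : ∃ r, t.1 = (a r, b r) ∧ (t.2 = a r ∨ t.2 = b r) := by
  unfold TT2 at ht
  rw [List.mem_flatMap] at ht
  obtain ⟨r, _, hr⟩ := ht
  rcases List.mem_append.1 hr with h | h
  · have := List.eq_of_mem_replicate h
    subst this
    exact ⟨r, rfl, Or.inl rfl⟩
  · have := List.eq_of_mem_replicate h
    subst this
    exact ⟨r, rfl, Or.inr rfl⟩

lemma TT2_length {h : ℕ} {a b : Fin h → Fin n} {m : Fin h → ℕ} (hm : ∀ r, 2 ≤ m r) :
    (TT2 a b m).length = ∑ r, m r := by
  unfold TT2
  rw [List.length_flatMap, Fin.sum_univ_def]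
  congr 1
  refine List.map_congr_left fun r _ => ?_
  rw [List.length_append, List.length_replicate, List.length_replicate]
  have := hm r
  omega

lemma TT2_dg {h : ℕ} {a b : Fin h → Fin n} {m : Fin h → ℕ} (hm : ∀ r, 2 ≤ m r) (c : Fin n) :
    dg ((TT2 a b m).map Prod.fst) c = ∑ r, if a r = c ∨ b r = c then m r else 0 := by
  unfold TT2 dg
  rw [List.countP_map, List.countP_flatMap, Fin.sum_univ_def]
  congr 1
  refine List.map_congr_left fun r _ => ?_
  simp only [Function.comp]
  rw [List.countP_append, List.countP_replicate, List.countP_replicate]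
  have := hm r
  by_cases hr : a r = c ∨ b r = c
  · simp only [hr, decide_true, if_true, Function.comp]
    omega
  · simp only [hr, decide_false, if_false, Function.comp]
    simp

lemma TT2_count {h : ℕ} {a b : Fin h → Fin n} {m : Fin h → ℕ} (c : Fin n) :
    ((TT2 a b m).map Prod.snd).count c =
      ∑ r, ((if a r = c then 2 else 0) + if b r = c then m r - 2 else 0) := by
  unfold TT2
  rw [List.count_eq_countP, List.countP_map, List.countP_flatMap, Fin.sum_univ_def]
  congr 1
  refine List.map_congr_left fun r _ => ?_
  simp only [Function.comp]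
  rw [List.countP_append, List.countP_replicate, List.countP_replicate]
  simp

lemma TT2_cov_a {h : ℕ} {a b : Fin h → Fin n} {m : Fin h → ℕ} (r : Fin h) {c : Fin n}
    (hc : a r = c) : 2 ≤ ((TT2 a b m).map Prod.snd).count c := by
  rw [TT2_count]
  refine le_trans ?_ (Finset.single_le_sum (f := fun r =>
    ((if a r = c then 2 else 0) + if b r = c then m r - 2 else 0)) (fun _ _ => Nat.zero_le _)
    (Finset.mem_univ r))
  rw [if_pos hc]
  omega

lemma TT2_cov_b {h : ℕ} {a b : Fin h → Fin n} {m : Fin h → ℕ} (r : Fin h) {c : Fin n}
    (hc : b r = c) (hm : 4 ≤ m r) : 2 ≤ ((TT2 a b m).map Prod.snd).count c := by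
  rw [TT2_count]
  refine le_trans ?_ (Finset.single_le_sum (f := fun r =>
    ((if a r = c then 2 else 0) + if b r = c then m r - 2 else 0)) (fun _ _ => Nat.zero_le _)
    (Finset.mem_univ r))
  rw [if_pos hc]
  omega

theorem exists_forest2 {h D M : ℕ} (hh2 : 2 ≤ h) (hnD : 2 * (M + D) = (h + h + 1) * D + 1)
    (hMn : 4 * h + 2 ≤ M) :
    ∃ F : MvPolynomial (Fin (h + h + 1)) ℚ, F.IsHomogeneous M ∧ ∑ c, pderiv c F = 0 ∧
      (∀ m ∈ F.support, ∀ c, m c ≤ D) ∧ ∃ v₀, coeff v₀ F ≠ 0 ∧ ∀ c, 2 ≤ v₀ c := by
  classical
  have h1 : 2 * (M + D) = 2 * (h * D) + D + 1 := by rw [hnD]; ring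
  have hD5 : 5 ≤ D := by
    by_contra hcon
    have : h * D ≤ h * 4 := Nat.mul_le_mul_left _ (by omega)
    omega
  let r₀ : Fin h := ⟨0, by omega⟩
  let r₁ : Fin h := ⟨1, by omega⟩
  have hr01 : r₁ ≠ r₀ := by
    intro h2
    have := congrArg Fin.val h2
    simp only [r₁, r₀] at this
    omega
  obtain ⟨m, hm, hs⟩ := exists_dist (h := h) (fun _ => 4)
    (fun r => if r = r₀ ∨ r = r₁ then D - 1 else D)
    (fun r => by split_ifs <;> omega) (N := M - 2)
    (by rw [Finset.sum_const, Finset.card_univ, Fintype.card_fin, smul_eq_mul]; omega)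
    (by
      rw [← Finset.add_sum_erase _ _ (Finset.mem_univ r₀), if_pos (Or.inl rfl),
        ← Finset.add_sum_erase _ _ (Finset.mem_erase.2 ⟨hr01, Finset.mem_univ r₁⟩),
        if_pos (Or.inr rfl)]
      have h3 : ∑ x ∈ (Finset.univ.erase r₀).erase r₁, (if x = r₀ ∨ x = r₁ then D - 1 else D) =
          ∑ x ∈ (Finset.univ.erase r₀).erase r₁, D :=
        Finset.sum_congr rfl fun x hx => if_neg (by
          rw [Finset.mem_erase, Finset.mem_erase] at hx
          exact fun hc => hc.elim hx.2.1 hx.1)
      rw [h3, Finset.sum_const, Finset.card_erase_of_mem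
        (Finset.mem_erase.2 ⟨hr01, Finset.mem_univ r₁⟩),
        Finset.card_erase_of_mem (Finset.mem_univ _), Finset.card_univ,
        Fintype.card_fin, smul_eq_mul]
      have h4 : h * D = (h - 1 - 1) * D + D + D := by
        obtain ⟨s, rfl⟩ : ∃ s, h = s + 2 := ⟨h - 2, by omega⟩
        rw [Nat.sub_sub, Nat.add_sub_cancel]
        ring
      omega)
  let a : Fin h → Fin (h + h + 1) := fun r => ⟨r, by omega⟩
  let b : Fin h → Fin (h + h + 1) := fun r => ⟨h + r, by omega⟩
  let x : Fin (h + h + 1) := ⟨h + h, by omega⟩
  have hmD : ∀ r, m r ≤ D := by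
    intro r
    have := (hm r).2
    split_ifs at this <;> omega
  refine forest_of_list2 (fun v : Fin (h + h + 1) => (v : ℕ) < h)
    (((a r₀, x), x) :: ((a r₁, x), x) :: TT2 a b m) ?_ ?_ ?_ ?_ ?_
  · intro t ht
    rcases List.mem_cons.1 ht with rfl | ht
    · simp only [a, x, r₀]
      omega
    rcases List.mem_cons.1 ht with rfl | ht
    · simp only [a, x, r₁]
      omega
    · obtain ⟨r, hr, _⟩ := TT2_mem ht
      rw [hr]
      refine ⟨r.2, ?_⟩
      simp only [b]
      omega
  · intro t ht
    rcases List.mem_cons.1 ht with rfl | ht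
    · exact Or.inr rfl
    rcases List.mem_cons.1 ht with rfl | ht
    · exact Or.inr rfl
    · obtain ⟨r, hr, hr2⟩ := TT2_mem ht
      rw [hr]
      exact hr2
  · rw [List.length_cons, List.length_cons, TT2_length (fun r => by have := (hm r).1; omega), hs]
    omega
  · intro c
    have hcons : dg ((((a r₀, x), x) :: ((a r₁, x), x) :: TT2 a b m).map Prod.fst) c =
        dg ((TT2 a b m).map Prod.fst) c + (if a r₁ = c ∨ x = c then 1 else 0)
          + if a r₀ = c ∨ x = c then 1 else 0 := by
      unfold dg
      rw [List.map_cons, List.map_cons, List.countP_cons, List.countP_cons]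
      simp
    rw [hcons, TT2_dg (fun r => by have := (hm r).1; omega)]
    rcases Nat.lt_or_ge (c : ℕ) h with hc | hc
    · have hxc : ¬ x = c := by
        intro h4
        have := congrArg Fin.val h4
        simp only [x] at this
        omega
      rw [Finset.sum_eq_single ⟨c, hc⟩]
      · rw [if_pos (Or.inl (by apply Fin.ext; rfl))]
        have h4 := (hm ⟨c, hc⟩).2
        have e0 : (a r₀ = c) ↔ (⟨c, hc⟩ : Fin h) = r₀ := by
          constructor
          · intro h2
            apply Fin.ext
            have := congrArg Fin.val h2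
            simp only [a] at this
            exact this.symm
          · intro h2
            apply Fin.ext
            have := congrArg Fin.val h2
            simp only [a]
            exact this.symm
        have e1 : (a r₁ = c) ↔ (⟨c, hc⟩ : Fin h) = r₁ := by
          constructor
          · intro h2
            apply Fin.ext
            have := congrArg Fin.val h2
            simp only [a] at this
            exact this.symm
          · intro h2
            apply Fin.ext
            have := congrArg Fin.val h2
            simp only [a]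
            exact this.symm
        by_cases h2 : (⟨c, hc⟩ : Fin h) = r₀
        · rw [if_pos (Or.inl h2)] at h4
          have h5 : ¬ (a r₁ = c ∨ x = c) := by
            rintro (h6 | h6)
            · exact hr01 ((e1.1 h6).symm.trans h2)
            · exact hxc h6
          rw [if_neg h5]
          split_ifs <;> omega
        · by_cases h3 : (⟨c, hc⟩ : Fin h) = r₁
          · rw [if_pos (Or.inr h3)] at h4
            have h5 : ¬ (a r₀ = c ∨ x = c) := by
              rintro (h6 | h6)
              · exact h2 (e0.1 h6)
              · exact hxc h6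
            rw [if_neg h5]
            split_ifs <;> omega
          · rw [if_neg (show ¬ (a r₀ = c ∨ x = c) from by
              rintro (h6 | h6)
              · exact h2 (e0.1 h6)
              · exact hxc h6),
              if_neg (show ¬ (a r₁ = c ∨ x = c) from by
              rintro (h6 | h6)
              · exact h3 (e1.1 h6)
              · exact hxc h6)]
            exact hmD _
      · intro r _ hr
        rw [if_neg]
        rintro (h2 | h2)
        · apply hr
          have h3 := congrArg Fin.val h2
          exact Fin.ext h3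
        · have h3 := congrArg Fin.val h2
          simp only [b] at h3
          omega
      · intro h2
        exact absurd (Finset.mem_univ _) h2
    · have ha0 : ¬ a r₀ = c := by
        intro h4
        have := congrArg Fin.val h4
        simp only [a, r₀] at this
        omega
      have ha1 : ¬ a r₁ = c := by
        intro h4
        have := congrArg Fin.val h4
        simp only [a, r₁] at this
        omega
      rcases Nat.lt_or_ge (c : ℕ) (h + h) with hc2 | hc2
      · rw [Finset.sum_eq_single ⟨c - h, by omega⟩]
        · have hxc : ¬ x = c := by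
            intro h4
            have := congrArg Fin.val h4
            simp only [x] at this
            omega
          rw [if_neg (show ¬ (a r₀ = c ∨ x = c) from fun h => h.elim ha0 hxc),
            if_neg (show ¬ (a r₁ = c ∨ x = c) from fun h => h.elim ha1 hxc), add_zero, add_zero]
          split_ifs
          · exact hmD _
          · exact Nat.zero_le _
        · intro r _ hr
          rw [if_neg]
          rintro (h2 | h2)
          · have h3 := congrArg Fin.val h2
            simp only [a] at h3
            omega
          · apply hr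
            have h3 := congrArg Fin.val h2
            simp only [b] at h3
            apply Fin.ext
            simp only
            omega
        · intro h2
          exact absurd (Finset.mem_univ _) h2
      · rw [Finset.sum_eq_zero]
        · split_ifs <;> omega
        · intro r _
          rw [if_neg]
          rintro (h2 | h2)
          · have h3 := congrArg Fin.val h2
            simp only [a] at h3
            omega
          · have h3 := congrArg Fin.val h2
            simp only [b] at h3
            omega
  · intro c
    rw [List.map_cons, List.map_cons, List.count_cons, List.count_cons]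
    rcases Nat.lt_or_ge (c : ℕ) h with hc | hc
    · have := TT2_cov_a (a := a) (b := b) (m := m) ⟨c, hc⟩ (c := c) (by apply Fin.ext; rfl)
      omega
    · rcases Nat.lt_or_ge (c : ℕ) (h + h) with hc2 | hc2
      · have := TT2_cov_b (a := a) (b := b) (m := m) ⟨c - h, by omega⟩ (c := c)
          (by apply Fin.ext; simp only [b]; omega) (hm _).1
        omega
      · have hx : x = c := by
          apply Fin.ext
          simp only [x]
          omega
        simp only [hx]
        simp

end Pool.Agent.W5h40.WlpE
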