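import Pool.Agent.W5h40.WlpE.Crit2

set_option autoImplicit false

open MvPolynomial

namespace Pool.Agent.W5h40.WlpE

open Pool.Agent.Helper720.Pow Pool.Agent.W5h40.Wlp
open Pool.Agent.Helper720

variable {n : ℕ}

/-- the lowering operator on functions -/
noncomputable def Fl (D : ℕ) (v : (Fin n →₀ ℕ) → ℚ) (w : Fin n →₀ ℕ) : ℚ :=
  ∑ j, (if w j < D then ((w j : ℚ) + 1) * ((D : ℚ) - w j) * v (w + Finsupp.single j 1) else 0)

/-- the raising operator on functions -/
noncomputable def Rs (v : (Fin n →₀ ℕ) → ℚ) (w : Fin n →₀ ℕ) : ℚ :=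
  ∑ j, (if w j = 0 then 0 else v (w - Finsupp.single j 1))

lemma Fl_sub (D : ℕ) (v v' : (Fin n →₀ ℕ) → ℚ) (w : Fin n →₀ ℕ) :
    Fl D (fun w => v w - v' w) w = Fl D v w - Fl D v' w := by
  unfold Fl
  rw [← Finset.sum_sub_distrib]
  refine Finset.sum_congr rfl fun j _ => ?_
  split_ifs <;> ring

lemma Fl_smul (D : ℕ) (r : ℚ) (v : (Fin n →₀ ℕ) → ℚ) (w : Fin n →₀ ℕ) :
    Fl D (fun w => r * v w) w = r * Fl D v w := by
  unfold Fl
  rw [Finset.mul_sum]
  refine Finset.sum_congr rfl fun j _ => ?_
  split_ifs <;> ring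

lemma Fl_sum (D : ℕ) {ι : Type*} (s : Finset ι) (v : ι → (Fin n →₀ ℕ) → ℚ) (w : Fin n →₀ ℕ) :
    Fl D (fun w => ∑ c ∈ s, v c w) w = ∑ c ∈ s, Fl D (v c) w := by
  unfold Fl
  rw [Finset.sum_comm]
  refine Finset.sum_congr rfl fun j _ => ?_
  split_ifs
  · rw [Finset.mul_sum]
  · rw [Finset.sum_const_zero]

/-- raised functions which are killed by the lowering operator vanish -/
lemma norm0 {D M : ℕ} {v z : (Fin n →₀ ℕ) → ℚ}
    (hvz : ∀ w ∈ Bs n (D + 1) 1 (M + 1), v w = Rs z w)
    (hlow : ∀ w ∈ Bs n (D + 1) 1 M, Fl D v w = 0) : ∀ w ∈ Bs n (D + 1) 1 (M + 1), v w = 0 := by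
  have hnorm : ∑ q ∈ Bs n (D + 1) 1 (M + 1), Nw D q * v q * v q = 0 := by
    have h1 : ∀ q ∈ Bs n (D + 1) 1 (M + 1), Nw D q * v q * v q =
        ∑ j, (if q j = 0 then 0 else Nw D q * v q * z (q - Finsupp.single j 1)) := by
      intro q hq
      have h2 : Nw D q * v q * v q = Nw D q * v q *
          ∑ j, (if q j = 0 then 0 else z (q - Finsupp.single j 1)) :=
        congrArg (fun x => Nw D q * v q * x) (hvz q hq)
      rw [h2, Finset.mul_sum]
      refine Finset.sum_congr rfl fun j _ => ?_
      split_ifs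
      · rw [mul_zero]
      · rfl
    rw [Finset.sum_congr rfl h1, sum_swap_pairs (fun q p => Nw D q * v q * z p)]
    refine Finset.sum_eq_zero fun p hp => ?_
    have h2 := hlow p hp
    unfold Fl at h2
    rw [mem_box] at hp
    have h3 : ∀ j : Fin n, (if fl (D + 1) (p + Finsupp.single j 1) < 1 then
        Nw D (p + Finsupp.single j 1) * v (p + Finsupp.single j 1) * z p else 0) =
        (Nw D p * z p) * (if p j < D then
          ((p j : ℚ) + 1) * ((D : ℚ) - p j) * v (p + Finsupp.single j 1) else 0) := by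
      intro j
      rw [fl_add_single hp.2]
      have := hp.2 j
      by_cases hj : p j < D
      · rw [if_neg (show ¬ p j = D by omega), if_pos (by omega), if_pos hj, Nw_add hj]
        ring
      · rw [if_pos (show p j = D by omega), if_neg (by omega), if_neg hj, mul_zero]
    rw [Finset.sum_congr rfl fun j _ => h3 j, ← Finset.mul_sum, h2, mul_zero]
  intro w hw
  have h1 := (Finset.sum_eq_zero_iff_of_nonneg (fun q _ => by
    have := (Nw_pos D q).le
    nlinarith [mul_self_nonneg (v q), mul_nonneg this (mul_self_nonneg (v q))])).1 hnorm w hw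
  have h2 := Nw_pos D w
  rcases mul_eq_zero.1 h1 with h3 | h3
  · exact (mul_eq_zero.1 h3).resolve_left h2.ne'
  · exact h3

/-- lowering the coefficient function of a translation invariant polynomial -/
lemma Fl_inv {D : ℕ} {F : MvPolynomial (Fin n) ℚ} (hDF : ∑ c, pderiv c F = 0)
    (hsupp : ∀ m ∈ F.support, ∀ c, m c ≤ D) (w : Fin n →₀ ℕ) :
    Fl D (fun w => coeff w F * ∏ j, ((D - w j).factorial : ℚ)) w = 0 := by
  have h1 := congrArg (coeff w) hDF
  rw [coeff_sum, coeff_zero] at h1
  have h2 : ∀ j : Fin n, (if w j < D then ((w j : ℚ) + 1) * ((D : ℚ) - w j) *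
      (coeff (w + Finsupp.single j 1) F *
        ∏ c, ((D - (w + Finsupp.single j 1 : Fin n →₀ ℕ) c).factorial : ℚ)) else 0) =
      (∏ c, ((D - w c).factorial : ℚ)) * coeff w (pderiv j F) := by
    intro j
    rw [coeff_pderiv]
    by_cases hj : w j < D
    · rw [if_pos hj]
      rw [← Finset.mul_prod_erase _ _ (Finset.mem_univ j),
        ← Finset.mul_prod_erase Finset.univ (fun c => ((D - w c).factorial : ℚ))
          (Finset.mem_univ j)]
      have h3 : ∀ c ∈ Finset.univ.erase j,
          ((D - (w + Finsupp.single j 1 : Fin n →₀ ℕ) c).factorial : ℚ) =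
          ((D - w c).factorial : ℚ) := by
        intro c hc
        rw [Finsupp.add_apply, Finsupp.single_apply,
          if_neg (Ne.symm (Finset.ne_of_mem_erase hc)), add_zero]
      rw [Finset.prod_congr rfl h3, Finsupp.add_apply, Finsupp.single_eq_same]
      obtain ⟨r, hr⟩ : ∃ r, D = w j + 1 + r := Nat.exists_eq_add_of_le hj
      have h4 : D - (w j + 1) = r := by omega
      have h5 : D - w j = r + 1 := by omega
      have h6 : (D : ℚ) = w j + 1 + r := by rw [hr]; push_cast; ring
      rw [h4, h5, Nat.factorial_succ, h6]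
      push_cast
      ring
    · rw [if_neg hj]
      have h3 : coeff (w + Finsupp.single j 1) F = 0 := by
        by_contra hne
        have := hsupp _ (mem_support_iff.2 hne) j
        rw [Finsupp.add_apply, Finsupp.single_eq_same] at this
        omega
      rw [h3, zero_mul, mul_zero]
  unfold Fl
  rw [Finset.sum_congr rfl fun j _ => h2 j, ← Finset.mul_sum, h1, mul_zero]

/-- the coefficient of `x_c ^ D` -/
noncomputable def Yc (D : ℕ) (c : Fin n) (η : MvPolynomial (Fin n) ℚ) (w : Fin n →₀ ℕ) : ℚ :=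
  if w c = 0 then coeff (w + Finsupp.single c D) η else 0

lemma Fl_Yc {D : ℕ} (c : Fin n) (η : MvPolynomial (Fin n) ℚ) {w : Fin n →₀ ℕ}
    (hwb : ∀ k, w k ≤ D) : Fl D (Yc D c η) w = Yc D c (Level.D (cv n D) η) w := by
  unfold Fl Yc
  by_cases hc : w c = 0
  · rw [if_pos hc, Level.coeff_D]
    refine Finset.sum_congr rfl fun j _ => ?_
    by_cases hjc : j = c
    · subst hjc
      have h2 : (w + Finsupp.single j D : Fin n →₀ ℕ) j = D := by
        rw [Finsupp.add_apply, Finsupp.single_eq_same]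
        omega
      rw [h2, cv_apply, sub_self, zero_mul, zero_mul]
      have h3 : (w + Finsupp.single j 1 : Fin n →₀ ℕ) j ≠ 0 := by
        rw [Finsupp.add_apply, Finsupp.single_eq_same]
        omega
      rw [if_neg h3, mul_zero, ite_self]
    · have h2 : (w + Finsupp.single c D : Fin n →₀ ℕ) j = w j := by
        rw [Finsupp.add_apply, Finsupp.single_apply, if_neg (Ne.symm hjc), add_zero]
      have h3 : (w + Finsupp.single j 1 : Fin n →₀ ℕ) c = 0 := by
        rw [Finsupp.add_apply, Finsupp.single_apply, if_neg hjc]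
        omega
      rw [h2, h3, if_pos rfl, cv_apply, add_right_comm]
      by_cases hj : w j < D
      · rw [if_pos hj]
        ring
      · have h4 : w j = D := by
          have := hwb j
          omega
        rw [if_neg hj, h4, sub_self, zero_mul, zero_mul]
  · rw [if_neg hc]
    refine Finset.sum_eq_zero fun j _ => ?_
    rw [if_neg (show ¬ ((w + Finsupp.single j 1 : Fin n →₀ ℕ) c = 0) by
      rw [Finsupp.add_apply]
      omega), mul_zero, ite_self]

/-- the commutator of the two operators on functions killed by the lowering operator -/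
lemma Fl_Rs {D M : ℕ} {u : (Fin n →₀ ℕ) → ℚ}
    (hu : ∀ w ∈ Bs n (D + 1) 1 M, Fl D u w = 0) {w : Fin n →₀ ℕ}
    (hw : w ∈ Bs n (D + 1) 1 (M + 1)) :
    Fl D (Rs u) w = (((n * D : ℕ) : ℚ) - 2 * ((M + 1 : ℕ) : ℚ)) * u w := by
  set P : MvPolynomial (Fin n) ℚ := toPoly ℚ n (D + 1) 1 (M + 1) (fun m => u m) with hP
  have hPc : ∀ m ∈ Bs n (D + 1) 1 (M + 1), coeff m P = u m := fun m hm =>
    coeff_toPoly (fun m : ↥(Bs n (D + 1) 1 (M + 1)) => u m) ⟨m, hm⟩
  have hPhom : P.IsHomogeneous (M + 1) := toPoly_hom _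
  have h1 := congrArg (coeff w) (Level.D_ell_mul (cv n D) hPhom)
  rw [coeff_add, coeff_C_mul, cv_degree, hPc w hw] at h1
  have hwb := (mem_box.1 hw).2
  have h2 : coeff w (Level.ell ℚ n * Level.D (cv n D) P) = 0 := by
    have h3 : Level.ell ℚ n = el ℚ n := rfl
    rw [h3, coeff_el_mul]
    refine Finset.sum_eq_zero fun k _ => ?_
    by_cases hk : w k = 0
    · rw [if_pos hk]
    · rw [if_neg hk, Level.coeff_D]
      have h4 : w - Finsupp.single k 1 ∈ Bs n (D + 1) 1 M := sub_mem_Bs hw hk
      rw [← hu _ h4]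
      unfold Fl
      refine Finset.sum_congr rfl fun j _ => ?_
      have h5 := (mem_box.1 h4).2 j
      by_cases hj : (w - Finsupp.single k 1 : Fin n →₀ ℕ) j < D
      · rw [if_pos hj, cv_apply, hPc]
        · ring
        · rw [add_single_mem h4, fl_add_single (mem_box.1 h4).2, if_neg (by omega)]
          norm_num
      · have h6 : (w - Finsupp.single k 1 : Fin n →₀ ℕ) j = D := by omega
        rw [if_neg hj, cv_apply, h6, sub_self, zero_mul, zero_mul]
  have h3 : coeff w (Level.D (cv n D) (Level.ell ℚ n * P)) = Fl D (Rs u) w := by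
    rw [Level.coeff_D]
    unfold Fl
    refine Finset.sum_congr rfl fun j _ => ?_
    by_cases hj : w j < D
    · have h4 : w + Finsupp.single j 1 ∈ Bs n (D + 1) 1 (M + 1 + 1) := by
        rw [add_single_mem hw, fl_add_single hwb, if_neg (by omega)]
        norm_num
      have h5 : coeff (w + Finsupp.single j 1) (Level.ell ℚ n * P) =
          Rs u (w + Finsupp.single j 1) := by
        have h6 : Level.ell ℚ n = el ℚ n := rfl
        rw [h6, coeff_el_mul]
        unfold Rs
        refine Finset.sum_congr rfl fun k _ => ?_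
        by_cases hk : (w + Finsupp.single j 1 : Fin n →₀ ℕ) k = 0
        · rw [if_pos hk, if_pos hk]
        · rw [if_neg hk, if_neg hk, hPc _ (sub_mem_Bs h4 hk)]
      rw [if_pos hj, cv_apply, h5]
      ring
    · have h4 : w j = D := by
        have := hwb j
        omega
      rw [if_neg hj, cv_apply, h4, sub_self, zero_mul, zero_mul]
  rw [h2, zero_add, h3] at h1
  exact h1

lemma D_sub' (w : Fin n →₀ ℕ) (f g : MvPolynomial (Fin n) ℚ) :
    Level.D w (f - g) = Level.D w f - Level.D w g := by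
  unfold Level.D
  rw [← Finset.sum_sub_distrib]
  refine Finset.sum_congr rfl fun j _ => ?_
  rw [map_sub, map_sub]
  ring

end Pool.Agent.W5h40.WlpE
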