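import Pool.Agent.W5h40.Wlp4.Gen
import Pool.Agent.W5h40.WlpE.Crit2

set_option autoImplicit false

open MvPolynomial

namespace Pool.Agent.W5h40.WlpE

open Pool.Agent.Helper720.Pow Pool.Agent.W5h40.Wlp

variable {K : Type*} [Field K]

/-- the coefficients of an element of degree `i` killed by the sum of the variables -/
def Ker {n : ℕ} (i : ℕ) (v : (Fin n → ℕ) → K) : Prop :=
  ∀ w : Fin n → ℕ, ∑ c, w c = i + 1 → ∑ c, w c / 3 < 2 →
    ∑ c, (if w c = 0 then 0 else v (Function.update w c (w c - 1))) = 0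

def Triv {n : ℕ} (i : ℕ) (v : (Fin n → ℕ) → K) : Prop :=
  ∀ w : Fin n → ℕ, ∑ c, w c = i → ∑ c, w c / 3 < 2 → v w = 0

/-- the value at `(a, b, r)` -/
def VV {n : ℕ} (v : (Fin (n + 2) → ℕ) → K) (a b : ℕ) (r : Fin n → ℕ) : K :=
  v (Fin.cons a (Fin.cons b r : Fin (n + 1) → ℕ))

def SS {n : ℕ} (v : (Fin (n + 2) → ℕ) → K) (a b : ℕ) (r : Fin n → ℕ) : K :=
  ∑ c, (if r c = 0 then 0 else VV v a b (Function.update r c (r c - 1)))

lemma ker_cons {n i : ℕ} {v : (Fin (n + 2) → ℕ) → K} (hv : Ker i v) (a b : ℕ) (r : Fin n → ℕ)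
    (h1 : a + b + ∑ c, r c = i + 1) (h2 : a / 3 + b / 3 + ∑ c, r c / 3 < 2) :
    (if a = 0 then 0 else VV v (a - 1) b r) + (if b = 0 then 0 else VV v a (b - 1) r) +
      SS v a b r = 0 := by
  have h := hv (Fin.cons a (Fin.cons b r : Fin (n + 1) → ℕ)) (by
    rw [Fin.sum_univ_succ, Fin.sum_univ_succ]
    simp only [Fin.cons_zero, Fin.cons_succ]
    omega) (by
    rw [Fin.sum_univ_succ, Fin.sum_univ_succ]
    simp only [Fin.cons_zero, Fin.cons_succ]
    omega)
  rw [Fin.sum_univ_succ, Fin.sum_univ_succ] at h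
  simp only [Fin.cons_zero, Fin.cons_succ, Fin.update_cons_zero, ← Fin.cons_update] at h
  refine Eq.trans ?_ h
  rw [add_assoc]
  rfl

/-- the contraction -/
def con {n : ℕ} (v : (Fin (n + 2) → ℕ) → K) (r : Fin n → ℕ) : K :=
  VV v 2 0 r - VV v 1 1 r + VV v 0 2 r

lemma con_ker {n i : ℕ} {v : (Fin (n + 2) → ℕ) → K} (hv : Ker (i + 2) v) : Ker i (con v) := by
  intro r h1 h2
  have hs : ∑ c, (if r c = 0 then 0 else con v (Function.update r c (r c - 1))) =
      SS v 2 0 r - SS v 1 1 r + SS v 0 2 r := by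
    unfold SS con
    rw [← Finset.sum_sub_distrib, ← Finset.sum_add_distrib]
    refine Finset.sum_congr rfl fun c _ => ?_
    split_ifs <;> ring
  rw [hs]
  have e1 := ker_cons hv 2 0 r (by omega) (by omega)
  have e2 := ker_cons hv 1 1 r (by omega) (by omega)
  have e3 := ker_cons hv 0 2 r (by omega) (by omega)
  norm_num at e1 e2 e3
  linear_combination e1 - e2 + e3

/-- the merge of the first two variables -/
def mg {n : ℕ} (v : (Fin (n + 2) → ℕ) → K) : ℕ → (Fin n → ℕ) → K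
  | 0, r => VV v 1 0 r - VV v 0 1 r
  | 1, r => VV v 2 0 r - VV v 0 2 r
  | 2, r => VV v 2 1 r - VV v 1 2 r
  | 3, r => VV v 3 1 r - VV v 1 3 r - VV v 4 0 r + VV v 0 4 r
  | 4, r => VV v 3 2 r - VV v 2 3 r - VV v 5 0 r + VV v 0 5 r
  | 5, r => VV v 4 2 r - VV v 2 4 r - VV v 5 1 r + VV v 1 5 r
  | _, _ => 0

lemma mg0 {n : ℕ} (v : (Fin (n + 2) → ℕ) → K) (r : Fin n → ℕ) :
    mg v 0 r = VV v 1 0 r - VV v 0 1 r := rfl
lemma mg1 {n : ℕ} (v : (Fin (n + 2) → ℕ) → K) (r : Fin n → ℕ) :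
    mg v 1 r = VV v 2 0 r - VV v 0 2 r := rfl
lemma mg2 {n : ℕ} (v : (Fin (n + 2) → ℕ) → K) (r : Fin n → ℕ) :
    mg v 2 r = VV v 2 1 r - VV v 1 2 r := rfl
lemma mg3 {n : ℕ} (v : (Fin (n + 2) → ℕ) → K) (r : Fin n → ℕ) :
    mg v 3 r = VV v 3 1 r - VV v 1 3 r - VV v 4 0 r + VV v 0 4 r := rfl
lemma mg4 {n : ℕ} (v : (Fin (n + 2) → ℕ) → K) (r : Fin n → ℕ) :
    mg v 4 r = VV v 3 2 r - VV v 2 3 r - VV v 5 0 r + VV v 0 5 r := rfl
lemma mg5 {n : ℕ} (v : (Fin (n + 2) → ℕ) → K) (r : Fin n → ℕ) :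
    mg v 5 r = VV v 4 2 r - VV v 2 4 r - VV v 5 1 r + VV v 1 5 r := rfl

def mer {n : ℕ} (v : (Fin (n + 2) → ℕ) → K) (w : Fin (n + 1) → ℕ) : K :=
  mg v (w 0) (fun c => w c.succ)

lemma mer_cons {n : ℕ} (v : (Fin (n + 2) → ℕ) → K) (z : ℕ) (r : Fin n → ℕ) :
    mer v (Fin.cons z r) = mg v z r := by
  unfold mer
  simp only [Fin.cons_zero, Fin.cons_succ]

lemma mer_ker {n i : ℕ} {v : (Fin (n + 2) → ℕ) → K} (hv : Ker (i + 1) v) : Ker i (mer v) := by
  intro w h1 h2
  obtain ⟨z, r, rfl⟩ : ∃ (z : ℕ) (r : Fin n → ℕ), w = (Fin.cons z r : Fin (n + 1) → ℕ) :=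
    ⟨w 0, fun c => w c.succ, (Fin.cons_self_tail w).symm⟩
  rw [Fin.sum_univ_succ] at h1 h2 ⊢
  simp only [Fin.cons_zero, Fin.cons_succ, Fin.update_cons_zero, ← Fin.cons_update,
    mer_cons] at h1 h2 ⊢
  rcases (by omega : z = 0 ∨ z = 1 ∨ z = 2 ∨ z = 3 ∨ z = 4 ∨ z = 5) with
    rfl | rfl | rfl | rfl | rfl | rfl
  · have hs : ∑ c, (if r c = 0 then 0 else mg v 0 (Function.update r c (r c - 1))) =
        SS v 1 0 r - SS v 0 1 r := by
      unfold SS
      rw [← Finset.sum_sub_distrib]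
      refine Finset.sum_congr rfl fun c _ => ?_
      simp only [mg0]
      split_ifs <;> ring
    rw [hs, if_pos rfl]
    have e1 := ker_cons hv 1 0 r (by omega) (by omega)
    have e2 := ker_cons hv 0 1 r (by omega) (by omega)
    norm_num at e1 e2
    linear_combination e1 - e2
  · have hs : ∑ c, (if r c = 0 then 0 else mg v 1 (Function.update r c (r c - 1))) =
        SS v 2 0 r - SS v 0 2 r := by
      unfold SS
      rw [← Finset.sum_sub_distrib]
      refine Finset.sum_congr rfl fun c _ => ?_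
      simp only [mg1]
      split_ifs <;> ring
    rw [hs, if_neg (by norm_num)]
    have e1 := ker_cons hv 2 0 r (by omega) (by omega)
    have e2 := ker_cons hv 0 2 r (by omega) (by omega)
    norm_num at e1 e2
    show mg v 0 r + _ = 0
    rw [mg0]
    linear_combination e1 - e2
  · have hs : ∑ c, (if r c = 0 then 0 else mg v 2 (Function.update r c (r c - 1))) =
        SS v 2 1 r - SS v 1 2 r := by
      unfold SS
      rw [← Finset.sum_sub_distrib]
      refine Finset.sum_congr rfl fun c _ => ?_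
      simp only [mg2]
      split_ifs <;> ring
    rw [hs, if_neg (by norm_num)]
    have e1 := ker_cons hv 2 1 r (by omega) (by omega)
    have e2 := ker_cons hv 1 2 r (by omega) (by omega)
    norm_num at e1 e2
    show mg v 1 r + _ = 0
    rw [mg1]
    linear_combination e1 - e2
  · have hs : ∑ c, (if r c = 0 then 0 else mg v 3 (Function.update r c (r c - 1))) =
        SS v 3 1 r - SS v 1 3 r - SS v 4 0 r + SS v 0 4 r := by
      unfold SS
      rw [← Finset.sum_sub_distrib, ← Finset.sum_sub_distrib, ← Finset.sum_add_distrib]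
      refine Finset.sum_congr rfl fun c _ => ?_
      simp only [mg3]
      split_ifs <;> ring
    rw [hs, if_neg (by norm_num)]
    have e1 := ker_cons hv 3 1 r (by omega) (by omega)
    have e2 := ker_cons hv 1 3 r (by omega) (by omega)
    have e3 := ker_cons hv 4 0 r (by omega) (by omega)
    have e4 := ker_cons hv 0 4 r (by omega) (by omega)
    norm_num at e1 e2 e3 e4
    show mg v 2 r + _ = 0
    rw [mg2]
    linear_combination e1 - e2 - e3 + e4
  · have hs : ∑ c, (if r c = 0 then 0 else mg v 4 (Function.update r c (r c - 1))) =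
        SS v 3 2 r - SS v 2 3 r - SS v 5 0 r + SS v 0 5 r := by
      unfold SS
      rw [← Finset.sum_sub_distrib, ← Finset.sum_sub_distrib, ← Finset.sum_add_distrib]
      refine Finset.sum_congr rfl fun c _ => ?_
      simp only [mg4]
      split_ifs <;> ring
    rw [hs, if_neg (by norm_num)]
    have e1 := ker_cons hv 3 2 r (by omega) (by omega)
    have e2 := ker_cons hv 2 3 r (by omega) (by omega)
    have e3 := ker_cons hv 5 0 r (by omega) (by omega)
    have e4 := ker_cons hv 0 5 r (by omega) (by omega)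
    norm_num at e1 e2 e3 e4
    show mg v 3 r + _ = 0
    rw [mg3]
    linear_combination e1 - e2 - e3 + e4
  · have hs : ∑ c, (if r c = 0 then 0 else mg v 5 (Function.update r c (r c - 1))) =
        SS v 4 2 r - SS v 2 4 r - SS v 5 1 r + SS v 1 5 r := by
      unfold SS
      rw [← Finset.sum_sub_distrib, ← Finset.sum_sub_distrib, ← Finset.sum_add_distrib]
      refine Finset.sum_congr rfl fun c _ => ?_
      simp only [mg5]
      split_ifs <;> ring
    rw [hs, if_neg (by norm_num)]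
    have e1 := ker_cons hv 4 2 r (by omega) (by omega)
    have e2 := ker_cons hv 2 4 r (by omega) (by omega)
    have e3 := ker_cons hv 5 1 r (by omega) (by omega)
    have e4 := ker_cons hv 1 5 r (by omega) (by omega)
    norm_num at e1 e2 e3 e4
    show mg v 4 r + _ = 0
    rw [mg4]
    linear_combination e1 - e2 - e3 + e4

/-- permutation of the variables -/
lemma ker_perm {n i : ℕ} {v : (Fin n → ℕ) → K} (hv : Ker i v) (σ : Equiv.Perm (Fin n)) :
    Ker i (fun w => v (w ∘ σ)) := by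
  intro w h1 h2
  have h := hv (w ∘ σ) (by
    rw [← h1]
    exact Equiv.sum_comp σ w) (by
    have := Equiv.sum_comp σ (fun c => w c / 3)
    simp only [Function.comp] at this ⊢
    rw [this]
    exact h2)
  rw [← Equiv.sum_comp σ]
  refine Eq.trans (Finset.sum_congr rfl fun c _ => ?_) h
  have h3 : Function.update w (σ c) (w (σ c) - 1) ∘ σ =
      Function.update (w ∘ σ) c ((w ∘ σ) c - 1) := by
    rw [Function.update_comp_equiv, Equiv.symm_apply_apply]
    rfl
  show (if w (σ c) = 0 then 0 else v (Function.update w (σ c) (w (σ c) - 1) ∘ σ)) = _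
  rw [h3]
  rfl

end Pool.Agent.W5h40.WlpE
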