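import Pool.Agent.W5h40.WlpE.Three

set_option autoImplicit false

open MvPolynomial

namespace Pool.Agent.W5h40.WlpE

open Pool.Agent.Helper720.Pow Pool.Agent.W5h40.Wlp

variable {K : Type*} [Field K]

lemma sum_upd {n : ℕ} (w : Fin n → ℕ) (j : Fin n) (x : ℕ) :
    ∑ c, Function.update w j x c + w j = ∑ c, w c + x := by
  rw [← Finset.add_sum_erase _ _ (Finset.mem_univ j), Function.update_self,
    ← Finset.add_sum_erase _ w (Finset.mem_univ j)]
  have : ∑ c ∈ Finset.univ.erase j, Function.update w j x c = ∑ c ∈ Finset.univ.erase j, w c :=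
    Finset.sum_congr rfl fun c hc => Function.update_of_ne (Finset.ne_of_mem_erase hc) _ _
  omega

lemma div_sum_zero {n : ℕ} {w : Fin n → ℕ} (hw : ∀ c, w c ≤ 2) : ∑ c, w c / 3 = 0 :=
  Finset.sum_eq_zero fun c _ => Nat.div_eq_of_lt (by have := hw c; omega)

lemma exists_perm {n : ℕ} {j k : Fin (n + 2)} (hjk : j ≠ k) :
    ∃ σ : Equiv.Perm (Fin (n + 2)), σ 0 = j ∧ σ 1 = k := by
  set σ₁ : Equiv.Perm (Fin (n + 2)) := Equiv.swap 0 j with hσ
  have h0 : σ₁ 0 = j := Equiv.swap_apply_left _ _
  have hk0 : σ₁ k ≠ 0 := by
    intro h
    have h1 : σ₁ j = 0 := Equiv.swap_apply_right _ _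
    exact hjk (σ₁.injective (h1.trans h.symm))
  refine ⟨σ₁ * Equiv.swap 1 (σ₁ k), ?_, ?_⟩
  · rw [Equiv.Perm.mul_apply, Equiv.swap_apply_of_ne_of_ne (by
      intro h
      exact absurd (congrArg Fin.val h) (by simp)) (Ne.symm hk0), h0]
  · rw [Equiv.Perm.mul_apply, Equiv.swap_apply_left, hσ]
    exact Equiv.swap_apply_self _ _ _

lemma cons_swap {n : ℕ} (a b : ℕ) (r : Fin n → ℕ) :
    (Fin.cons a (Fin.cons b r : Fin (n + 1) → ℕ) : Fin (n + 2) → ℕ) ∘ Equiv.swap 0 1 =
      Fin.cons b (Fin.cons a r : Fin (n + 1) → ℕ) := by
  funext c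
  refine Fin.cases ?_ (fun c => Fin.cases ?_ (fun c => ?_) c) c
  · rw [Function.comp_apply, Equiv.swap_apply_left]
    rfl
  · show (Fin.cons a (Fin.cons b r : Fin (n + 1) → ℕ) : Fin (n + 2) → ℕ)
      (Equiv.swap 0 1 1) = _
    rw [Equiv.swap_apply_right]
    rfl
  · rw [Function.comp_apply, Equiv.swap_apply_of_ne_of_ne]
    · rfl
    · exact Fin.succ_ne_zero _
    · intro h
      exact absurd (congrArg Fin.val h) (by simp)

lemma exists_cons {n : ℕ} (w : Fin (n + 2) → ℕ) :
    ∃ (a b : ℕ) (r : Fin n → ℕ), w = (Fin.cons a (Fin.cons b r : Fin (n + 1) → ℕ)) := by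
  refine ⟨w 0, w 1, fun c => w c.succ.succ, ?_⟩
  funext c
  refine Fin.cases rfl (fun c => Fin.cases rfl (fun c => rfl) c) c

/-- the relations for the first two variables -/
lemma rel01 {n : ℕ} {v : (Fin (n + 2) → ℕ) → K}
    (hmer : Triv (n + 3) (mer v)) (hcon : Triv (n + 2) (con v)) {w : Fin (n + 2) → ℕ}
    (hw : ∀ c, w c ≤ 2) (hs : ∑ c, w c = n + 4) :
    v (w ∘ Equiv.swap 0 1) = v w ∧
      (w 0 = 2 → w 1 = 0 → 2 * v w = v (Function.update (Function.update w 0 1) 1 1)) := by
  obtain ⟨a, b, r, rfl⟩ := exists_cons w
  have ha : a ≤ 2 := hw 0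
  have hb : b ≤ 2 := hw 1
  have hr : ∀ c, r c ≤ 2 := fun c => hw c.succ.succ
  have hr0 := div_sum_zero hr
  rw [Fin.sum_univ_succ, Fin.sum_univ_succ] at hs
  simp only [Fin.cons_zero, Fin.cons_succ] at hs
  have key : ∀ z : ℕ, z ≤ 2 → z + ∑ c, r c = n + 3 → mg v z r = 0 := by
    intro z hz h
    have h1 := hmer (Fin.cons z r) (by
      rw [Fin.sum_univ_succ]
      simp only [Fin.cons_zero, Fin.cons_succ]
      omega) (by
      rw [Fin.sum_univ_succ]
      simp only [Fin.cons_zero, Fin.cons_succ]
      omega)
    rwa [mer_cons] at h1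
  have keyc : ∑ c, r c = n + 2 → VV v 2 0 r - VV v 1 1 r + VV v 0 2 r = 0 := by
    intro h
    exact hcon r h (by omega)
  refine ⟨?_, ?_⟩
  · rw [cons_swap]
    show VV v b a r = VV v a b r
    rcases (by omega : a = b ∨ (a = 0 ∧ b = 1) ∨ (a = 1 ∧ b = 0) ∨ (a = 0 ∧ b = 2) ∨
      (a = 2 ∧ b = 0) ∨ (a = 1 ∧ b = 2) ∨ (a = 2 ∧ b = 1)) with
      rfl | ⟨rfl, rfl⟩ | ⟨rfl, rfl⟩ | ⟨rfl, rfl⟩ | ⟨rfl, rfl⟩ | ⟨rfl, rfl⟩ | ⟨rfl, rfl⟩
    · rfl
    · have := key 0 (by omega) (by omega)
      rw [mg0] at this
      linear_combination this
    · have := key 0 (by omega) (by omega)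
      rw [mg0] at this
      linear_combination -this
    · have := key 1 (by omega) (by omega)
      rw [mg1] at this
      linear_combination this
    · have := key 1 (by omega) (by omega)
      rw [mg1] at this
      linear_combination -this
    · have := key 2 (by omega) (by omega)
      rw [mg2] at this
      linear_combination this
    · have := key 2 (by omega) (by omega)
      rw [mg2] at this
      linear_combination -this
  · intro h0 h1
    have ha2 : a = 2 := h0
    have hb0 : b = 0 := h1
    subst ha2
    subst hb0
    have h2 : Function.update (Function.update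
        (Fin.cons 2 (Fin.cons 0 r : Fin (n + 1) → ℕ) : Fin (n + 2) → ℕ) 0 1) 1 1 =
        Fin.cons 1 (Fin.cons 1 r : Fin (n + 1) → ℕ) := by
      funext c
      refine Fin.cases ?_ (fun c => Fin.cases ?_ (fun c => ?_) c) c
      · rw [Function.update_of_ne (by
          intro h
          exact absurd (congrArg Fin.val h) (by simp)), Function.update_self]
        rfl
      · show Function.update _ _ _ (1 : Fin (n + 2)) = _
        rw [Function.update_self]
        rfl
      · rw [Function.update_of_ne (by
          intro h
          exact absurd (congrArg Fin.val h) (by simp)), Function.update_of_ne (by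
          exact Fin.succ_ne_zero _)]
        rfl
    rw [h2]
    show 2 * VV v 2 0 r = VV v 1 1 r
    have e1 := key 1 (by omega) (by omega)
    rw [mg1] at e1
    have e2 := keyc (by omega)
    linear_combination e2 + e1

/-- the relations for any two variables -/
lemma rel {n : ℕ} (IH1 : ∀ v : (Fin (n + 1) → ℕ) → K, Ker (n + 3) v → Triv (n + 3) v)
    (IH2 : ∀ v : (Fin n → ℕ) → K, Ker (n + 2) v → Triv (n + 2) v)
    {v : (Fin (n + 2) → ℕ) → K} (hv : Ker (n + 4) v) {j k : Fin (n + 2)} (hjk : j ≠ k)
    {w : Fin (n + 2) → ℕ} (hw : ∀ c, w c ≤ 2) (hs : ∑ c, w c = n + 4) :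
    v (w ∘ Equiv.swap j k) = v w ∧
      (w j = 2 → w k = 0 → 2 * v w = v (Function.update (Function.update w j 1) k 1)) := by
  obtain ⟨σ, h0, h1⟩ := exists_perm hjk
  set v' : (Fin (n + 2) → ℕ) → K := fun w => v (w ∘ (σ⁻¹ : Equiv.Perm (Fin (n + 2)))) with hv'
  have hk := ker_perm hv σ⁻¹
  have hR := rel01 (v := v') (IH1 _ (mer_ker hk)) (IH2 _ (con_ker hk)) (w := w ∘ σ)
    (fun c => hw _) (by rw [← hs]; exact Equiv.sum_comp σ w)
  have hid : ∀ u : Fin (n + 2) → ℕ,
      (u ∘ σ) ∘ (σ⁻¹ : Equiv.Perm (Fin (n + 2))) = u := by
    intro u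
    funext c
    simp [Function.comp]
  refine ⟨?_, ?_⟩
  · have h2 := hR.1
    rw [hv'] at h2
    simp only at h2
    rw [hid] at h2
    rw [← h2]
    congr 1
    rw [← h0, ← h1, Equiv.swap_apply_apply]
    funext c
    simp [Function.comp]
  · intro hj hk'
    have h2 := hR.2 (by rw [Function.comp_apply, h0]; exact hj)
      (by rw [Function.comp_apply, h1]; exact hk')
    rw [hv'] at h2
    simp only at h2
    rw [hid, Function.update_comp_equiv, Function.update_comp_equiv, hid] at h2
    have h3 : (Equiv.symm (σ⁻¹ : Equiv.Perm (Fin (n + 2)))) = σ := rfl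
    rw [h3, h0, h1] at h2
    exact h2

/-- the part outside of the ideal generated by the cubes vanishes -/
lemma claimA [CharZero K] {n : ℕ} (hn : 1 ≤ n)
    (IH1 : ∀ v : (Fin (n + 1) → ℕ) → K, Ker (n + 3) v → Triv (n + 3) v)
    (IH2 : ∀ v : (Fin n → ℕ) → K, Ker (n + 2) v → Triv (n + 2) v)
    {v : (Fin (n + 2) → ℕ) → K} (hv : Ker (n + 4) v) :
    ∀ (z : ℕ) (w : Fin (n + 2) → ℕ), (Finset.univ.filter fun c => w c = 0).card = z →
      (∀ c, w c ≤ 2) → ∑ c, w c = n + 4 → v w = 0 := by
  intro z
  induction z using Nat.strong_induction_on with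
  | _ z ih =>
    intro w hz hw hs
    by_cases hk : ∃ k, w k = 0
    · obtain ⟨k, hk⟩ := hk
      obtain ⟨j, hj⟩ : ∃ j, w j = 2 := by
        by_contra hcon
        push Not at hcon
        have h1 : ∑ c, w c ≤ ∑ c : Fin (n + 2), 1 := Finset.sum_le_sum fun c _ => by
          have := hw c
          have := hcon c
          omega
        rw [Finset.sum_const, Finset.card_univ, Fintype.card_fin, smul_eq_mul] at h1
        omega
      have hjk : j ≠ k := by
        rintro rfl
        omega
      have h1 := (rel IH1 IH2 hv hjk hw hs).2 hj hk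
      have e1 := sum_upd w j 1
      have e2 := sum_upd (Function.update w j 1) k 1
      rw [Function.update_of_ne hjk.symm] at e2
      have h2 := ih _ (by
        rw [← hz]
        apply Finset.card_lt_card (s := Finset.univ.filter fun c =>
          Function.update (Function.update w j 1) k 1 c = 0)
        rw [Finset.ssubset_iff_subset_ne]
        constructor
        · intro c hc
          rw [Finset.mem_filter] at hc ⊢
          refine ⟨hc.1, ?_⟩
          by_cases hck : c = k
          · rw [hck, hk]
          · have h3 := hc.2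
            rw [Function.update_of_ne hck] at h3
            by_cases hcj : c = j
            · rw [hcj, Function.update_self] at h3
              omega
            · rwa [Function.update_of_ne hcj] at h3
        · intro h
          have h3 : k ∈ Finset.univ.filter fun c => w c = 0 :=
            Finset.mem_filter.2 ⟨Finset.mem_univ _, hk⟩
          rw [← h, Finset.mem_filter, Function.update_self] at h3
          omega) (Function.update (Function.update w j 1) k 1) rfl (by
        intro c
        by_cases hck : c = k
        · rw [hck, Function.update_self]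
          omega
        · rw [Function.update_of_ne hck]
          by_cases hcj : c = j
          · rw [hcj, Function.update_self]
            omega
          · rw [Function.update_of_ne hcj]
            exact hw c) (by omega)
      rw [h2] at h1
      exact (mul_eq_zero.1 h1).resolve_left two_ne_zero
    · push Not at hk
      obtain ⟨t, ht⟩ : ∃ t, w t = 1 := by
        by_contra hcon
        push Not at hcon
        have h1 : ∑ c, w c = ∑ c : Fin (n + 2), 2 := Finset.sum_congr rfl fun c _ => by
          have := hw c
          have := hcon c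
          have := hk c
          omega
        rw [Finset.sum_const, Finset.card_univ, Fintype.card_fin, smul_eq_mul] at h1
        omega
      set u := Function.update w t 2 with hu
      have hu2 : ∀ c, u c ≤ 2 := by
        intro c
        by_cases hct : c = t
        · rw [hct, hu, Function.update_self]
        · rw [hu, Function.update_of_ne hct]
          exact hw c
      have hus : ∑ c, u c = n + 5 := by
        have h := sum_upd w t 2
        rw [← hu] at h
        omega
      have h1 := hv u hus (by rw [div_sum_zero hu2]; omega)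
      have h2 : ∀ c, 2 * (if u c = 0 then 0 else v (Function.update u c (u c - 1))) =
          ((if w c = 1 ∧ c ≠ t then 1 else 2 : ℕ) : K) * v w := by
        intro c
        by_cases hct : c = t
        · have h3 : u t = 2 := by rw [hu, Function.update_self]
          have h4 : Function.update u t (u t - 1) = w := by
            rw [h3, hu, Function.update_idem]
            have : (2 - 1 : ℕ) = w t := by rw [ht]
            rw [this, Function.update_eq_self]
          rw [hct, if_neg (by omega), h4, if_neg (by tauto)]
          push_cast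
          ring
        · have h3 : u c = w c := by rw [hu, Function.update_of_ne hct]
          rw [if_neg (by rw [h3]; exact hk c)]
          by_cases hc1 : w c = 1
          · rw [if_pos ⟨hc1, hct⟩, h3, hc1]
            have e1 := sum_upd u c 0
            rw [h3, hc1] at e1
            have h4 := (rel IH1 IH2 hv (Ne.symm hct) (w := Function.update u c 0) (by
              intro x
              by_cases hx : x = c
              · rw [hx, Function.update_self]
                omega
              · rw [Function.update_of_ne hx]
                exact hu2 x) (by omega)).2 (by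
                rw [Function.update_of_ne (Ne.symm hct), hu, Function.update_self])
                (by rw [Function.update_self])
            have h5 : Function.update (Function.update (Function.update u c 0) t 1) c 1 = w := by
              funext x
              by_cases hx : x = c
              · rw [hx, Function.update_self, hc1]
              · rw [Function.update_of_ne hx]
                by_cases hxt : x = t
                · rw [hxt, Function.update_self, ht]
                · rw [Function.update_of_ne hxt, Function.update_of_ne hx, hu,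
                    Function.update_of_ne hxt]
            rw [h5] at h4
            rw [h4]
            push_cast
            ring
          · have hc2 : w c = 2 := by
              have := hw c
              have := hk c
              omega
            rw [if_neg (by tauto), h3, hc2]
            have h4 : Function.update u c (2 - 1) = w ∘ Equiv.swap c t := by
              funext x
              rw [Function.comp_apply]
              by_cases hx : x = c
              · rw [hx, Function.update_self, Equiv.swap_apply_left, ht]
              · rw [Function.update_of_ne hx]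
                by_cases hxt : x = t
                · rw [hxt, Equiv.swap_apply_right, hu, Function.update_self, hc2]
                · rw [Equiv.swap_apply_of_ne_of_ne hx hxt, hu, Function.update_of_ne hxt]
            rw [h4, (rel IH1 IH2 hv hct hw hs).1]
            push_cast
            ring
      have h3 : ((∑ c, (if w c = 1 ∧ c ≠ t then 1 else 2) : ℕ) : K) * v w = 0 := by
        rw [Nat.cast_sum, Finset.sum_mul, ← Finset.sum_congr rfl fun c _ => h2 c,
          ← Finset.mul_sum, h1, mul_zero]
      refine (mul_eq_zero.1 h3).resolve_left (Nat.cast_ne_zero.2 ?_)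
      have h4 : ∑ c : Fin (n + 2), 1 ≤ ∑ c, (if w c = 1 ∧ c ≠ t then 1 else 2) :=
        Finset.sum_le_sum fun c _ => by split_ifs <;> omega
      rw [Finset.sum_const, Finset.card_univ, Fintype.card_fin, smul_eq_mul] at h4
      omega

/-- the coefficient function of a polynomial -/
lemma coe_sub_single {n : ℕ} (q : Fin n →₀ ℕ) (j : Fin n) :
    ⇑(q - Finsupp.single j 1 : Fin n →₀ ℕ) = Function.update (⇑q) j (q j - 1) := by
  funext c
  rw [Finsupp.tsub_apply, Finsupp.single_apply]
  by_cases h : j = c
  · subst h
    rw [if_pos rfl, Function.update_self]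
  · rw [if_neg h, Function.update_of_ne (Ne.symm h), Nat.sub_zero]

lemma claimB [CharZero K] {N : ℕ} {v : (Fin N → ℕ) → K} (hv : Ker (N + 2) v)
    (hA : ∀ w : Fin N → ℕ, (∀ c, w c ≤ 2) → ∑ c, w c = N + 2 → v w = 0) : Triv (N + 2) v := by
  intro w hs hfl
  by_cases hw : ∀ c, w c ≤ 2
  · exact hA w hw hs
  push Not at hw
  obtain ⟨c₀, hc₀⟩ := hw
  have hN : 1 ≤ N := by
    have := c₀.2
    omega
  have hfl2 : w c₀ / 3 + ∑ c ∈ Finset.univ.erase c₀, w c / 3 < 2 := by
    rw [Finset.add_sum_erase _ (fun c => w c / 3) (Finset.mem_univ c₀)]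
    exact hfl
  have hc1 : w c₀ / 3 = 1 := by
    have : 1 ≤ w c₀ / 3 := by omega
    omega
  have hrest : ∀ c, c ≠ c₀ → w c ≤ 2 := by
    intro c hc
    have h1 : w c / 3 ≤ ∑ c ∈ Finset.univ.erase c₀, w c / 3 :=
      Finset.single_le_sum (f := fun c => w c / 3) (fun _ _ => Nat.zero_le _)
        (Finset.mem_erase.2 ⟨hc, Finset.mem_univ c⟩)
    omega
  -- the polynomial
  set hh : (Fin N → ℕ) → K := fun u => v (Function.update u c₀ (u c₀ + 3)) with hhh
  set f : MvPolynomial (Fin N) K := toPoly K N 3 1 (N - 1) (fun m => hh (m : Fin N →₀ ℕ)) with hf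
  have hfc : ∀ m ∈ Bs N 3 1 (N - 1), coeff m f = hh m := fun m hm =>
    coeff_toPoly (fun m : ↥(Bs N 3 1 (N - 1)) => hh (m : Fin N →₀ ℕ)) ⟨m, hm⟩
  have h1 : el K N ^ 1 * f ∈ powIdeal K N 3 1 := by
    rw [pow_one]
    have hhom : (el K N * f).IsHomogeneous N := by
      have := el_mul_hom (K := K) (toPoly_hom (fun m : ↥(Bs N 3 1 (N - 1)) => hh (m : Fin N →₀ ℕ)))
      rwa [show N - 1 + 1 = N by omega] at this
    apply mem_of_coeff (by norm_num) hhom
    intro q hq hqfl
    have hqb : ∀ c, q c ≤ 2 := (mem_box (D := 2).1 (mem_Bs.2 ⟨hq, hqfl⟩)).2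
    have hqs : ∑ c, q c = N := by rw [← Finsupp.degree_eq_sum, hq]
    rw [coeff_el_mul]
    set W : Fin N → ℕ := Function.update q c₀ (q c₀ + 3) with hW
    have eW := sum_upd (⇑q) c₀ (q c₀ + 3)
    rw [← hW] at eW
    have h2 := hv W (by omega) (by
      rw [← Finset.add_sum_erase _ _ (Finset.mem_univ c₀)]
      have h3 : ∑ c ∈ Finset.univ.erase c₀, W c / 3 = 0 := Finset.sum_eq_zero fun c hc => by
        rw [hW, Function.update_of_ne (Finset.ne_of_mem_erase hc)]
        exact Nat.div_eq_of_lt (by have := hqb c; omega)
      have h4 : W c₀ = q c₀ + 3 := by rw [hW, Function.update_self]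
      rw [h3, h4]
      have := hqb c₀
      omega)
    refine Eq.trans (Finset.sum_congr rfl fun j _ => ?_) h2
    by_cases hj : j = c₀
    · have hWj : W j = q j + 3 := by rw [hj, hW, Function.update_self]
      rw [if_neg (show ¬ W j = 0 by omega)]
      by_cases hq0 : q j = 0
      · rw [if_pos hq0]
        symm
        have e1 := sum_upd W j (W j - 1)
        apply hA
        · intro c
          by_cases hc : c = j
          · rw [hc, Function.update_self]
            omega
          · rw [Function.update_of_ne hc, hW, Function.update_of_ne (by rw [← hj]; exact hc)]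
            exact hqb c
        · omega
      · rw [if_neg hq0, hfc]
        · rw [hhh]
          simp only
          rw [coe_sub_single]
          congr 1
          funext c
          by_cases hc : c = c₀
          · rw [hc, Function.update_self, ← hj, Function.update_self, Function.update_self, hWj]
            omega
          · rw [Function.update_of_ne hc, Function.update_of_ne (by rw [hj]; exact hc),
              Function.update_of_ne (by rw [hj]; exact hc), hW, Function.update_of_ne hc]
        · have h5 : N = N - 1 + 1 := by omega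
          apply sub_mem_Bs _ hq0
          rw [← h5]
          exact mem_Bs.2 ⟨hq, hqfl⟩
    · have hWj : W j = q j := by rw [hW, Function.update_of_ne hj]
      rw [hWj]
      by_cases hq0 : q j = 0
      · rw [if_pos hq0, if_pos hq0]
      · rw [if_neg hq0, if_neg hq0, hfc]
        · rw [hhh]
          simp only
          rw [coe_sub_single]
          congr 1
          rw [Function.update_of_ne (Ne.symm hj), hW, Function.update_comm hj]
        · have h5 : N = N - 1 + 1 := by omega
          apply sub_mem_Bs _ hq0
          rw [← h5]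
          exact mem_Bs.2 ⟨hq, hqfl⟩
  have h2 := inj_k1 (i := N - 1) (j := 1) (by norm_num) (by omega) f (toPoly_hom _) h1
  rw [mem_powIdeal (by norm_num)] at h2
  set u : Fin N →₀ ℕ := Finsupp.equivFunOnFinite.symm (Function.update w c₀ (w c₀ - 3)) with hu
  have huc : ⇑u = Function.update w c₀ (w c₀ - 3) := rfl
  have hub : u ∈ Bs N 3 1 (N - 1) := by
    rw [mem_box (D := 2)]
    constructor
    · rw [Finsupp.degree_eq_sum]
      have e1 := sum_upd w c₀ (w c₀ - 3)
      rw [huc]
      omega
    · intro c
      rw [huc]
      by_cases hc : c = c₀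
      · rw [hc, Function.update_self]
        omega
      · rw [Function.update_of_ne hc]
        exact hrest c hc
  have h3 := h2 u (mem_Bs.1 hub).2
  rw [hfc u hub, hhh] at h3
  simp only at h3
  rw [huc, Function.update_self, Function.update_idem, show w c₀ - 3 + 3 = w c₀ by omega,
    Function.update_eq_self] at h3
  exact h3

theorem triv_of_ker [CharZero K] : ∀ (N : ℕ), 1 ≤ N → ∀ v : (Fin N → ℕ) → K,
    Ker (N + 2) v → Triv (N + 2) v := by
  intro N
  induction N using Nat.strong_induction_on with
  | _ N ih =>
    intro hN v hv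
    rcases (by omega : N = 1 ∨ N = 2 ∨ 3 ≤ N) with rfl | rfl | h3
    · intro w hs hfl
      rw [Fin.sum_univ_one] at hs hfl
      have h1 := hv (fun _ => 4) (by simp) (by simp)
      rw [Fin.sum_univ_one] at h1
      norm_num at h1
      rw [← h1]
      congr 1
      funext c
      rw [Subsingleton.elim c 0, Function.update_self]
      omega
    · intro w hs hfl
      obtain ⟨a, b, r, rfl⟩ := exists_cons w
      have hab : a + b = 4 := by
        rw [Fin.sum_univ_two] at hs
        exact hs
      have key : ∀ x y : ℕ, x + y = 5 → x / 3 + y / 3 < 2 →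
          (if x = 0 then 0 else VV v (x - 1) y r) + (if y = 0 then 0 else VV v x (y - 1) r) = 0 := by
        intro x y hxy h
        have := ker_cons hv x y r (by simp; omega) (by simp; omega)
        have h2 : SS v x y r = 0 := by
          unfold SS
          simp
        rwa [h2, add_zero] at this
      have e1 := key 5 0 (by norm_num) (by norm_num)
      have e2 := key 4 1 (by norm_num) (by norm_num)
      have e3 := key 3 2 (by norm_num) (by norm_num)
      have e4 := key 2 3 (by norm_num) (by norm_num)
      have e5 := key 1 4 (by norm_num) (by norm_num)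
      norm_num at e1 e2 e3 e4 e5
      show VV v a b r = 0
      rcases (by omega : (a = 4 ∧ b = 0) ∨ (a = 3 ∧ b = 1) ∨ (a = 2 ∧ b = 2) ∨ (a = 1 ∧ b = 3) ∨
        (a = 0 ∧ b = 4)) with ⟨rfl, rfl⟩ | ⟨rfl, rfl⟩ | ⟨rfl, rfl⟩ | ⟨rfl, rfl⟩ | ⟨rfl, rfl⟩
      · exact e1
      · linear_combination e2 - e1
      · linear_combination e3 - e2 + e1
      · linear_combination e4 - e3 + e2 - e1
      · linear_combination e5 - e4 + e3 - e2 + e1
    · obtain ⟨n, rfl⟩ : ∃ n, N = n + 2 := ⟨N - 2, by omega⟩
      apply claimB hv
      intro w hw hs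
      exact claimA (by omega) (fun v hv => ih (n + 1) (by omega) (by omega) v hv)
        (fun v hv => ih n (by omega) (by omega) v hv) hv _ w rfl hw hs

/-- the injectivity for `d = 3`, `k = 2` -/
theorem inj_three [CharZero K] {n : ℕ} (hn : 1 ≤ n) : InjAt K n 3 2 (n + 2) 1 := by
  intro f hf hJ
  rw [pow_one, mem_powIdeal (by norm_num)] at hJ
  set v : (Fin n → ℕ) → K := fun w => coeff (Finsupp.equivFunOnFinite.symm w) f with hv
  have hker : Ker (n + 2) v := by
    intro w hs hfl
    have h1 := hJ (Finsupp.equivFunOnFinite.symm w) hfl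
    rw [coeff_el_mul] at h1
    refine Eq.trans (Finset.sum_congr rfl fun c _ => ?_) h1
    have h2 : (Finsupp.equivFunOnFinite.symm w : Fin n →₀ ℕ) c = w c := rfl
    rw [h2]
    by_cases hc : w c = 0
    · rw [if_pos hc, if_pos hc]
    · rw [if_neg hc, if_neg hc, hv]
      simp only
      congr 1
      apply DFunLike.coe_injective
      rw [coe_sub_single]
      rfl
  have h1 := triv_of_ker n hn v hker
  apply mem_of_coeff (by norm_num) hf
  intro w hw hfl
  have h2 := h1 (⇑w) (by rw [← Finsupp.degree_eq_sum, hw]) hfl
  rw [hv] at h2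
  simp only at h2
  have h3 : Finsupp.equivFunOnFinite.symm (⇑w) = w := Finsupp.equivFunOnFinite_symm_coe w
  rwa [h3] at h2

end Pool.Agent.W5h40.WlpE
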